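import Pool.Agent.LR54.Mult
import Pool.Agent.DP54.Dummies

/-!
# LR54.DiophC: such a class contains every Diophantine set.
-/

namespace LR54

variable {p : ℕ} {C : ∀ {α : Type}, Set (α → ℕ) → Prop}

theorem ExClass.fmul (hp : p.Prime) (h2 : p ≠ 2) (h : ExClass p C) {α : Type}
    {g g' : (α → ℕ) → ℕ} (hg : CF C g) (hg' : CF C g') : CF C (fun v => g v * g' v) := by
  unfold CF
  refine h.rel (α := Option α) (g := ![fun w => g (w ∘ some), fun w => g' (w ∘ some),
    fun w => w none]) (fun i => ?_) (ExClass.mul hp h2 h)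
  fin_cases i
  · exact h.freindex some hg
  · exact h.freindex some hg'
  · exact h.fproj none

/-- The relation `P v + b = a`. -/
def PolyIn (C : ∀ {α : Type}, Set (α → ℕ) → Prop) {β : Type} (P : Poly β) : Prop :=
  C {w : Option (Option β) → ℕ |
    P ((w ∘ some) ∘ some) + (w none : ℤ) = (w (some none) : ℤ)}

/-- substitution in `PolyIn` -/
theorem PolyIn.use (h : ExClass p C) {β γ : Type} {P : Poly β} (hP : PolyIn C P) (e : β → γ)
    {a b : (γ → ℕ) → ℕ} (ha : CF C a) (hb : CF C b) :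
    C {v : γ → ℕ | P (v ∘ e) + (b v : ℤ) = (a v : ℤ)} := by
  have h1 : C {w : γ ⊕ Fin 2 → ℕ | (fun (v : γ → ℕ) (t : Fin 2 → ℕ) =>
      (a v = t 0 ∧ b v = t 1) ∧ P (v ∘ e) + (t 1 : ℤ) = (t 0 : ℤ))
      (w ∘ Sum.inl) (w ∘ Sum.inr)} := by
    refine h.inter (h.inter (h.feq (h.freindex Sum.inl ha) (h.fproj _))
      (h.feq (h.freindex Sum.inl hb) (h.fproj _))) ?_
    exact h.reindex (fun o : Option (Option β) => o.elim (Sum.inr 1)
      (fun o' => o'.elim (Sum.inr 0) (fun x => Sum.inl (e x)))) hP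
  refine h.ext (h.exFin (P := fun (v : γ → ℕ) (t : Fin 2 → ℕ) =>
      (a v = t 0 ∧ b v = t 1) ∧ P (v ∘ e) + (t 1 : ℤ) = (t 0 : ℤ)) h1) fun v => ?_
  constructor
  · rintro ⟨t, ⟨h0, h1⟩, h3⟩
    change P (v ∘ e) + (b v : ℤ) = (a v : ℤ)
    rw [h0, h1]
    exact h3
  · intro hv
    exact ⟨![a v, b v], ⟨rfl, rfl⟩, hv⟩

theorem polyIn (hp : p.Prime) (h2 : p ≠ 2) (h : ExClass p C) {β : Type} (P : Poly β) :
    PolyIn C P := by
  refine Poly.induction (C := fun P : Poly β => PolyIn C P) ?_ ?_ ?_ ?_ P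
  · intro i
    refine h.ext (h.feq (h.fadd (h.fproj (some (some i))) (h.fproj none))
      (h.fproj (some none))) fun w => ?_
    change w (some (some i)) + w none = w (some none) ↔
      ((w (some (some i)) : ℕ) : ℤ) + (w none : ℤ) = (w (some none) : ℤ)
    exact_mod_cast Iff.rfl
  · intro n
    obtain ⟨m, rfl | rfl⟩ := Int.eq_nat_or_neg n
    · refine h.ext (h.feq (h.fadd (h.fconst m) (h.fproj none))
        (h.fproj (some none))) fun w => ?_
      change m + w none = w (some none) ↔ (m : ℤ) + (w none : ℤ) = (w (some none) : ℤ)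
      exact_mod_cast Iff.rfl
    · refine h.ext (h.feq (h.fproj none) (h.fadd (h.fconst m)
        (h.fproj (some none)))) fun w => ?_
      change w none = m + w (some none) ↔ -(m : ℤ) + (w none : ℤ) = (w (some none) : ℤ)
      omega
  · intro P Q hP hQ
    -- (P - Q) v + b = a
    have hT : ∀ i : Fin 4, CF C (fun w : Option (Option β) ⊕ Fin 4 → ℕ => w (Sum.inr i)) :=
      fun i => h.fproj _
    have hA : CF C (fun w : Option (Option β) ⊕ Fin 4 → ℕ => w (Sum.inl (some none))) := h.fproj _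
    have hB : CF C (fun w : Option (Option β) ⊕ Fin 4 → ℕ => w (Sum.inl none)) := h.fproj _
    let R : (Option (Option β) → ℕ) → (Fin 4 → ℕ) → Prop := fun w t =>
      (P ((w ∘ some) ∘ some) + (t 1 : ℤ) = (t 0 : ℤ)) ∧
      (Q ((w ∘ some) ∘ some) + (t 3 : ℤ) = (t 2 : ℤ)) ∧
      t 0 + t 3 + w none = w (some none) + t 1 + t 2
    have h1 : C {w : Option (Option β) ⊕ Fin 4 → ℕ | R (w ∘ Sum.inl) (w ∘ Sum.inr)} :=
      h.inter (hP.use h (fun x => Sum.inl (some (some x))) (hT 0) (hT 1)) <|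
      h.inter (hQ.use h (fun x => Sum.inl (some (some x))) (hT 2) (hT 3)) <|
      h.feq (h.fadd (h.fadd (hT 0) (hT 3)) hB) (h.fadd (h.fadd hA (hT 1)) (hT 2))
    refine h.ext (h.exFin (P := R) h1) fun w => ?_
    constructor
    · rintro ⟨t, e1, e2, e3⟩
      change (P - Q) ((w ∘ some) ∘ some) + (w none : ℤ) = (w (some none) : ℤ)
      rw [Poly.sub_apply]
      have e3' : (t 0 : ℤ) + t 3 + w none = w (some none) + t 1 + t 2 := by exact_mod_cast e3
      linarith
    · intro hw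
      have hw' : (P - Q) ((w ∘ some) ∘ some) + (w none : ℤ) = (w (some none) : ℤ) := hw
      rw [Poly.sub_apply] at hw'
      refine ⟨![(P ((w ∘ some) ∘ some)).toNat, (-(P ((w ∘ some) ∘ some))).toNat,
        (Q ((w ∘ some) ∘ some)).toNat, (-(Q ((w ∘ some) ∘ some))).toNat], ?_, ?_, ?_⟩
      · change P ((w ∘ some) ∘ some) + ((-(P ((w ∘ some) ∘ some))).toNat : ℤ) =
          ((P ((w ∘ some) ∘ some)).toNat : ℤ)
        omega
      · change Q ((w ∘ some) ∘ some) + ((-(Q ((w ∘ some) ∘ some))).toNat : ℤ) =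
          ((Q ((w ∘ some) ∘ some)).toNat : ℤ)
        omega
      · change (P ((w ∘ some) ∘ some)).toNat + (-(Q ((w ∘ some) ∘ some))).toNat + w none =
          w (some none) + (-(P ((w ∘ some) ∘ some))).toNat + (Q ((w ∘ some) ∘ some)).toNat
        omega
  · intro P Q hP hQ
    have hT : ∀ i : Fin 4, CF C (fun w : Option (Option β) ⊕ Fin 4 → ℕ => w (Sum.inr i)) :=
      fun i => h.fproj _
    have hA : CF C (fun w : Option (Option β) ⊕ Fin 4 → ℕ => w (Sum.inl (some none))) := h.fproj _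
    have hB : CF C (fun w : Option (Option β) ⊕ Fin 4 → ℕ => w (Sum.inl none)) := h.fproj _
    have hm : ∀ i j : Fin 4,
        CF C (fun w : Option (Option β) ⊕ Fin 4 → ℕ => w (Sum.inr i) * w (Sum.inr j)) :=
      fun i j => ExClass.fmul hp h2 h (hT i) (hT j)
    let R : (Option (Option β) → ℕ) → (Fin 4 → ℕ) → Prop := fun w t =>
      (P ((w ∘ some) ∘ some) + (t 1 : ℤ) = (t 0 : ℤ)) ∧
      (Q ((w ∘ some) ∘ some) + (t 3 : ℤ) = (t 2 : ℤ)) ∧
      t 0 * t 2 + t 1 * t 3 + w none = w (some none) + t 0 * t 3 + t 2 * t 1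
    have h1 : C {w : Option (Option β) ⊕ Fin 4 → ℕ | R (w ∘ Sum.inl) (w ∘ Sum.inr)} :=
      h.inter (hP.use h (fun x => Sum.inl (some (some x))) (hT 0) (hT 1)) <|
      h.inter (hQ.use h (fun x => Sum.inl (some (some x))) (hT 2) (hT 3)) <|
      h.feq (h.fadd (h.fadd (hm 0 2) (hm 1 3)) hB) (h.fadd (h.fadd hA (hm 0 3)) (hm 2 1))
    refine h.ext (h.exFin (P := R) h1) fun w => ?_
    constructor
    · rintro ⟨t, e1, e2, e3⟩
      change (P * Q) ((w ∘ some) ∘ some) + (w none : ℤ) = (w (some none) : ℤ)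
      rw [Poly.mul_apply]
      have e3' : (t 0 : ℤ) * t 2 + t 1 * t 3 + w none =
          w (some none) + t 0 * t 3 + t 2 * t 1 := by exact_mod_cast e3
      have e4 : P ((w ∘ some) ∘ some) = (t 0 : ℤ) - t 1 := by linarith
      have e5 : Q ((w ∘ some) ∘ some) = (t 2 : ℤ) - t 3 := by linarith
      rw [e4, e5]
      linarith
    · intro hw
      have hw' : (P * Q) ((w ∘ some) ∘ some) + (w none : ℤ) = (w (some none) : ℤ) := hw
      rw [Poly.mul_apply] at hw'
      have e1 : P ((w ∘ some) ∘ some) + ((-(P ((w ∘ some) ∘ some))).toNat : ℤ) =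
          ((P ((w ∘ some) ∘ some)).toNat : ℤ) := by omega
      have e2 : Q ((w ∘ some) ∘ some) + ((-(Q ((w ∘ some) ∘ some))).toNat : ℤ) =
          ((Q ((w ∘ some) ∘ some)).toNat : ℤ) := by omega
      refine ⟨![(P ((w ∘ some) ∘ some)).toNat, (-(P ((w ∘ some) ∘ some))).toNat,
        (Q ((w ∘ some) ∘ some)).toNat, (-(Q ((w ∘ some) ∘ some))).toNat], e1, e2, ?_⟩
      change (P ((w ∘ some) ∘ some)).toNat * (Q ((w ∘ some) ∘ some)).toNat +
        (-(P ((w ∘ some) ∘ some))).toNat * (-(Q ((w ∘ some) ∘ some))).toNat + w none =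
        w (some none) + (P ((w ∘ some) ∘ some)).toNat * (-(Q ((w ∘ some) ∘ some))).toNat +
        (Q ((w ∘ some) ∘ some)).toNat * (-(P ((w ∘ some) ∘ some))).toNat
      have e3 : (((P ((w ∘ some) ∘ some)).toNat : ℤ) * ((Q ((w ∘ some) ∘ some)).toNat : ℤ) +
        ((-(P ((w ∘ some) ∘ some))).toNat : ℤ) * ((-(Q ((w ∘ some) ∘ some))).toNat : ℤ) +
          (w none : ℤ)) =
        (w (some none) : ℤ) + ((P ((w ∘ some) ∘ some)).toNat : ℤ) *
          ((-(Q ((w ∘ some) ∘ some))).toNat : ℤ) +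
        ((Q ((w ∘ some) ∘ some)).toNat : ℤ) * ((-(P ((w ∘ some) ∘ some))).toNat : ℤ) := by
        rw [← hw', ← e1, ← e2]
        ring
      exact_mod_cast e3

theorem ExClass.dioph {p : ℕ} (hp : p.Prime) (h2 : p ≠ 2)
    {C : ∀ {α : Type}, Set (α → ℕ) → Prop} (h : ExClass p C) {α : Type} {S : Set (α → ℕ)}
    (hS : Dioph S) : C S := by
  obtain ⟨k, P, hP⟩ := DP54.finite_dummies hS
  have h1 : C {w : α ⊕ Fin k → ℕ | (fun (v : α → ℕ) (t : Fin k → ℕ) =>
      P (Sum.elim v t) = 0) (w ∘ Sum.inl) (w ∘ Sum.inr)} := by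
    refine h.ext ((polyIn hp h2 h P).use h id (h.fconst 0) (h.fconst 0)) fun w => ?_
    change P (w ∘ id) + ((0 : ℕ) : ℤ) = ((0 : ℕ) : ℤ) ↔
      P (Sum.elim (w ∘ Sum.inl) (w ∘ Sum.inr)) = 0
    rw [Sum.elim_comp_inl_inr, Function.comp_id, Nat.cast_zero, add_zero]
  refine h.ext (h.exFin (P := fun (v : α → ℕ) (t : Fin k → ℕ) =>
      P (Sum.elim v t) = 0) h1) fun v => ?_
  exact (hP v).symm

end LR54
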