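import Mathlib

/-!
# LR54.ED: existentially definable (positive, by finite systems of integer polynomial equations)
sets over a commutative ring, with an arbitrary index type of variables.
-/

namespace LR54

open MvPolynomial

variable {R : Type} [CommRing R] {α β : Type}

/-- `S` is the projection of the solution set of a finite system. -/
def ED (S : Set (α → R)) : Prop :=
  ∃ (k : ℕ) (L : List (MvPolynomial (α ⊕ Fin k) ℤ)),
    ∀ v, v ∈ S ↔ ∃ t : Fin k → R, ∀ q ∈ L, aeval (Sum.elim v t) q = 0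

/-- Terms. -/
def Term (g : (α → R) → R) : Prop := ∃ q : MvPolynomial α ℤ, ∀ v, g v = aeval v q

theorem Term.proj (i : α) : Term (fun v : α → R => v i) := ⟨X i, fun v => by simp⟩

theorem Term.int (n : ℤ) : Term (fun _ : α → R => (n : R)) := ⟨C n, fun v => by simp⟩

theorem Term.nat (n : ℕ) : Term (fun _ : α → R => (n : R)) := ⟨C n, fun v => by simp⟩

theorem Term.add {g h : (α → R) → R} (hg : Term g) (hh : Term h) :
    Term (fun v => g v + h v) := by
  obtain ⟨q, hq⟩ := hg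
  obtain ⟨r, hr⟩ := hh
  exact ⟨q + r, fun v => by simp [hq, hr]⟩

theorem Term.mul {g h : (α → R) → R} (hg : Term g) (hh : Term h) :
    Term (fun v => g v * h v) := by
  obtain ⟨q, hq⟩ := hg
  obtain ⟨r, hr⟩ := hh
  exact ⟨q * r, fun v => by simp [hq, hr]⟩

theorem Term.sub {g h : (α → R) → R} (hg : Term g) (hh : Term h) :
    Term (fun v => g v - h v) := by
  obtain ⟨q, hq⟩ := hg
  obtain ⟨r, hr⟩ := hh
  exact ⟨q - r, fun v => by simp [hq, hr]⟩

theorem Term.pow {g : (α → R) → R} (hg : Term g) (n : ℕ) : Term (fun v => g v ^ n) := by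
  obtain ⟨q, hq⟩ := hg
  exact ⟨q ^ n, fun v => by simp [hq]⟩

theorem Term.comp {g : (β → R) → R} (hg : Term g) {h : β → (α → R) → R} (hh : ∀ b, Term (h b)) :
    Term (fun v => g (fun b => h b v)) := by
  obtain ⟨q, hq⟩ := hg
  choose r hr using hh
  refine ⟨bind₁ r q, fun v => ?_⟩
  simp only [hq, hr]
  rw [← aeval_bind₁]

theorem ED.ext {S T : Set (α → R)} (h : ED S) (e : ∀ v, v ∈ S ↔ v ∈ T) : ED T := by
  rwa [← Set.ext e]

theorem ED.univ : ED (Set.univ : Set (α → R)) := ⟨0, [], fun v => by simp⟩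

theorem ED.eq {g h : (α → R) → R} (hg : Term g) (hh : Term h) : ED {v | g v = h v} := by
  obtain ⟨q, hq⟩ := hg
  obtain ⟨r, hr⟩ := hh
  refine ⟨0, [rename Sum.inl (q - r)], fun v => ?_⟩
  simp only [Set.mem_ofPred_eq, List.mem_singleton, forall_eq, aeval_rename, Sum.elim_comp_inl,
    map_sub, ← hq, ← hr]
  constructor
  · intro h
    exact ⟨fun i => i.elim0, by rw [h, sub_self]⟩
  · rintro ⟨_, h⟩
    exact sub_eq_zero.1 h

theorem ED.inter {S T : Set (α → R)} (hS : ED S) (hT : ED T) : ED {v | v ∈ S ∧ v ∈ T} := by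
  obtain ⟨k, L, hL⟩ := hS
  obtain ⟨l, M, hM⟩ := hT
  refine ⟨k + l, L.map (rename (Sum.map id (Fin.castAdd l))) ++
    M.map (rename (Sum.map id (Fin.natAdd k))), fun v => ?_⟩
  have e1 : ∀ t : Fin (k + l) → R,
      (Sum.elim v t) ∘ (Sum.map id (Fin.castAdd l)) = Sum.elim v (t ∘ Fin.castAdd l) := by
    intro t
    funext i
    cases i <;> rfl
  have e2 : ∀ t : Fin (k + l) → R,
      (Sum.elim v t) ∘ (Sum.map id (Fin.natAdd k)) = Sum.elim v (t ∘ Fin.natAdd k) := by
    intro t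
    funext i
    cases i <;> rfl
  have key : ∀ t : Fin (k + l) → R, (∀ q ∈ L.map (rename (Sum.map id (Fin.castAdd l))) ++
      M.map (rename (Sum.map id (Fin.natAdd k))), aeval (Sum.elim v t) q = 0) ↔
      (∀ q ∈ L, aeval (Sum.elim v (t ∘ Fin.castAdd l)) q = 0) ∧
      (∀ q ∈ M, aeval (Sum.elim v (t ∘ Fin.natAdd k)) q = 0) := by
    intro t
    simp only [List.mem_append, List.mem_map]
    constructor
    · intro h
      refine ⟨fun q hq => ?_, fun q hq => ?_⟩
      · have := h _ (Or.inl ⟨q, hq, rfl⟩)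
        rwa [aeval_rename, e1] at this
      · have := h _ (Or.inr ⟨q, hq, rfl⟩)
        rwa [aeval_rename, e2] at this
    · rintro ⟨h1, h2⟩ q (⟨q, hq, rfl⟩ | ⟨q, hq, rfl⟩)
      · rw [aeval_rename, e1]
        exact h1 q hq
      · rw [aeval_rename, e2]
        exact h2 q hq
  rw [Set.mem_ofPred_eq, hL, hM]
  constructor
  · rintro ⟨⟨t1, h1⟩, ⟨t2, h2⟩⟩
    refine ⟨Fin.append t1 t2, (key _).2 ?_⟩
    rw [show (Fin.append t1 t2) ∘ Fin.castAdd l = t1 from funext fun i => Fin.append_left _ _ _,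
      show (Fin.append t1 t2) ∘ Fin.natAdd k = t2 from funext fun i => Fin.append_right _ _ _]
    exact ⟨h1, h2⟩
  · rintro ⟨t, ht⟩
    obtain ⟨h1, h2⟩ := (key _).1 ht
    exact ⟨⟨_, h1⟩, ⟨_, h2⟩⟩

theorem ED.subst {T : Set (β → R)} (hT : ED T) {h : β → (α → R) → R} (hh : ∀ b, Term (h b)) :
    ED {v : α → R | (fun b => h b v) ∈ T} := by
  obtain ⟨k, L, hL⟩ := hT
  choose r hr using hh
  refine ⟨k, L.map (bind₁ (Sum.elim (fun b => rename Sum.inl (r b)) (fun j => X (Sum.inr j)))),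
    fun v => ?_⟩
  rw [Set.mem_ofPred_eq, hL]
  have e : ∀ t : Fin k → R, (fun i : β ⊕ Fin k => aeval (Sum.elim v t)
      (Sum.elim (fun b => rename Sum.inl (r b)) (fun j => X (Sum.inr j)) i :
        MvPolynomial (α ⊕ Fin k) ℤ)) = Sum.elim (fun b => h b v) t := by
    intro t
    funext i
    cases i with
    | inl b => simp [aeval_rename, Sum.elim_comp_inl, hr]
    | inr j => simp
  refine exists_congr fun t => ?_
  simp only [List.mem_map]
  constructor
  · rintro h1 q ⟨q, hq, rfl⟩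
    rw [aeval_bind₁, e]
    exact h1 q hq
  · intro h1 q hq
    have := h1 _ ⟨q, hq, rfl⟩
    rwa [aeval_bind₁, e] at this

theorem ED.ex {P : (α → R) → R → Prop} (h : ED {w : Option α → R | P (w ∘ some) (w none)}) :
    ED {v : α → R | ∃ x, P v x} := by
  obtain ⟨k, L, hL⟩ := h
  set ρ : Option α ⊕ Fin k → α ⊕ Fin (k + 1) :=
    Sum.elim (fun o => o.elim (Sum.inr 0) Sum.inl) (fun j => Sum.inr j.succ) with hρ
  refine ⟨k + 1, L.map (rename ρ), fun v => ?_⟩
  have hPx : ∀ x, P v x ↔ ∃ t : Fin k → R, ∀ q ∈ L,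
      aeval (Sum.elim (fun o : Option α => o.elim x v) t) q = 0 := by
    intro x
    rw [← hL]
    rfl
  have e : ∀ t : Fin (k + 1) → R, (Sum.elim v t) ∘ ρ =
      Sum.elim (fun o : Option α => o.elim (t 0) v) (fun j => t j.succ) := by
    intro t
    funext i
    rcases i with (_ | a) | j <;> rfl
  rw [Set.mem_ofPred_eq]
  constructor
  · rintro ⟨x, hx⟩
    obtain ⟨t, ht⟩ := (hPx x).1 hx
    refine ⟨Fin.cons x t, ?_⟩
    intro q' hq'
    obtain ⟨q, hq, rfl⟩ := List.mem_map.1 hq'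
    rw [aeval_rename, e]
    exact ht q hq
  · rintro ⟨t, ht⟩
    refine ⟨t 0, (hPx _).2 ⟨fun j => t j.succ, fun q hq => ?_⟩⟩
    have := ht _ (List.mem_map.2 ⟨q, hq, rfl⟩)
    rwa [aeval_rename, e] at this

theorem ED.ballFin_aux (n : ℕ) : ∀ {P : (α → R) → Fin n → Prop},
    (∀ j, ED {v : α → R | P v j}) → ED {v : α → R | ∀ j, P v j} := by
  induction n with
  | zero =>
    intro P _
    exact ED.univ.ext fun v => by simp
  | succ n ih =>
    intro P h
    have h1 := ED.inter (h 0) (ih (P := fun v j => P v j.succ) fun j => h j.succ)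
    refine h1.ext fun v => ?_
    simp only [Set.mem_ofPred_eq]
    rw [Fin.forall_fin_succ]

theorem ED.ballFin [Finite β] {P : (α → R) → β → Prop} (h : ∀ j, ED {v : α → R | P v j}) :
    ED {v : α → R | ∀ j, P v j} := by
  obtain ⟨n, ⟨e⟩⟩ := Finite.exists_equiv_fin β
  refine (ED.ballFin_aux n (P := fun v j => P v (e.symm j)) fun j => h _).ext fun v => ?_
  simp only [Set.mem_ofPred_eq]
  exact ⟨fun h b => by simpa using h (e b), fun h j => h _⟩

end LR54
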