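import Pool.Agent.LR54.RR
import Pool.Agent.LR54.DiophC
import Pool.Agent.DP54.Final

/-!
# LR54.Enc: encoding of systems as lists, and the final undecidability theorem.
-/

namespace LR54

variable {p : ℕ} [Fact p.Prime]

/-- Value of a list polynomial. -/
def lval {R : Type} [CommRing R] (x : ℕ → R) (f : List (ℤ × List ℕ)) : R :=
  (f.map (fun m => (m.1 : R) * (m.2.map x).prod)).sum

/-- Every integer polynomial is given by a list. -/
theorem exists_list (q : MvPolynomial ℕ ℤ) : ∃ L : List (ℤ × List ℕ),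
    ∀ {R : Type} [CommRing R] (x : ℕ → R), lval x L = MvPolynomial.aeval x q := by
  induction q using MvPolynomial.induction_on with
  | C a =>
    refine ⟨[(a, [])], ?_⟩
    intro R _ x
    simp [lval]
  | add p q hp hq =>
    obtain ⟨L, hL⟩ := hp
    obtain ⟨M, hM⟩ := hq
    refine ⟨L ++ M, ?_⟩
    intro R _ x
    rw [map_add, ← hL, ← hM]
    simp [lval]
  | mul_X q i hq =>
    obtain ⟨L, hL⟩ := hq
    refine ⟨L.map fun m => (m.1, i :: m.2), ?_⟩
    intro R _ x
    rw [map_mul, ← hL, MvPolynomial.aeval_X]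
    simp only [lval, List.map_map]
    rw [← List.sum_map_mul_right]
    congr 1
    apply List.map_congr_left
    intro m _
    simp only [Function.comp_apply, List.map_cons, List.prod_cons]
    ring

/-- The class of relations over `ℕ` definable in `A p`. -/
def CC (p : ℕ) [Fact p.Prime] {α : Type} (S : Set (α → ℕ)) : Prop :=
  MD (fun (_ : A p) (v : α → ℕ) (_ : Empty → A p) => v ∈ S)

theorem cc_exClass (hp : 13 ≤ p) : ExClass p (CC p) where
  ext h e := MD.ext h fun f _ v w => e v
  univ := MD.ext (MD.eq (MF.nat 0) (MF.nat 0)) fun f _ v w => by simp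
  inter h h' := MD.and h h'
  ex h := MD.exN hp h
  reindex g _ h := MD.reindex g id h
  add := MD.addN hp 0 1 2
  one := MD.oneN 0
  rr := MD.rr hp

/-- `t` is a good element. -/
theorem exists_good : ∃ f : A p, Good f := by
  have hp : p.Prime := Fact.out
  have hinj : Function.Injective (algebraMap (Polynomial (ZMod p)) (RatFunc (ZMod p))) :=
    FaithfulSMul.algebraMap_injective _ _
  have hd0 : (Polynomial.X ^ (p - 1) - 1 : Polynomial (ZMod p)).eval 0 ≠ 0 := by
    have : (0 : ZMod p) ^ (p - 1) = 0 := zero_pow (by have := hp.two_le; omega)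
    simp [this]
  have hd : algebraMap (Polynomial (ZMod p)) (RatFunc (ZMod p))
      (Polynomial.X ^ (p - 1) - 1) ≠ 0 := by
    intro h
    rw [map_eq_zero_iff _ hinj] at h
    exact hd0 (by rw [h]; simp)
  let t : A p := ⟨algebraMap (Polynomial (ZMod p)) (RatFunc (ZMod p)) Polynomial.X,
    Polynomial.X, 1, by simp, by simp⟩
  let z : A p := ⟨1 / algebraMap (Polynomial (ZMod p)) (RatFunc (ZMod p))
    (Polynomial.X ^ (p - 1) - 1), 1, Polynomial.X ^ (p - 1) - 1, hd0, by simp⟩
  refine ⟨t, ?_, t, z, ?_⟩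
  · intro h
    have h1 := congrArg Subtype.val h
    simp only [t, ZeroMemClass.coe_zero] at h1
    rw [map_eq_zero_iff _ hinj] at h1
    exact Polynomial.X_ne_zero h1
  · apply Subtype.ext
    simp only [t, z, MulMemClass.coe_mul, AddSubgroupClass.coe_sub, SubmonoidClass.coe_pow]
    rw [mul_one_div, eq_div_iff hd, ← map_mul, ← map_pow, ← map_sub]
    congr 1
    have hX : (Polynomial.X : Polynomial (ZMod p)) ^ p =
        Polynomial.X ^ (p - 1) * Polynomial.X := by
      rw [← pow_succ]
      congr 1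
      have := hp.two_le
      omega
    rw [hX]
    ring

/-- The renaming of variables. -/
def rho {k : ℕ} : Option (Fin2 1 ⊕ Empty) ⊕ Fin k → ℕ :=
  Sum.elim (fun o => o.elim 0 (fun _ => 1)) (fun i => 4 + i)

theorem rho_spec {k : ℕ} (x : ℕ → A p) (c : ℕ) (w : Empty → A p) (h : x 1 = x 0 ^ (p ^ c)) :
    x ∘ (rho (k := k)) = Sum.elim (asg (x 0) (fun _ : Fin2 1 => c) w)
      (fun i : Fin k => x (4 + i)) := by
  funext o
  rcases o with (_ | (_ | e)) | i
  · rfl
  · simpa [rho, asg] using h
  · exact e.elim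
  · rfl

/-- The reduction: a Diophantine set of numbers reduces to solvability of systems over `A p`. -/
theorem reduction (hp : 13 ≤ p) {S : ℕ → Prop} (hS : Dioph {v : Fin2 1 → ℕ | S (v Fin2.fz)}) :
    ∃ (L : List (List (ℤ × List ℕ))) (g : List (ℤ × List ℕ)), ∀ c : ℕ,
      S c ↔ ∃ x : ℕ → A p,
        (∀ f ∈ ([((1 : ℤ), [1]), ((-1 : ℤ), List.replicate (p ^ c) 0)] :: L), lval x f = 0) ∧
        lval x g ≠ 0 := by
  classical
  have hprime : p.Prime := Fact.out
  have hC : CC p {v : Fin2 1 → ℕ | S (v Fin2.fz)} :=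
    (cc_exClass hp).dioph hprime (by omega) hS
  obtain ⟨T, ⟨k, L', hL'⟩, hT⟩ := hC
  choose enc henc using exists_list
  have henc' : ∀ (q : MvPolynomial ℕ ℤ) (x : ℕ → A p), lval x (enc q) = MvPolynomial.aeval x q :=
    fun q x => henc q x
  refine ⟨enc (MvPolynomial.X 0 - (MvPolynomial.X 2 ^ p - MvPolynomial.X 2) * MvPolynomial.X 3) ::
    L'.map (fun q => enc (MvPolynomial.rename rho q)), [(1, [0])], fun c => ?_⟩
  have h1 : ∀ x : ℕ → A p, lval x [((1 : ℤ), [1]), ((-1 : ℤ), List.replicate (p ^ c) 0)] = 0 ↔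
      x 1 = x 0 ^ (p ^ c) := by
    intro x
    simp only [lval, List.map_cons, List.map_nil, List.prod_cons, List.prod_nil,
      List.sum_cons, List.sum_nil, List.map_replicate, List.prod_replicate]
    constructor
    · intro h
      have : x 1 - x 0 ^ p ^ c = 0 := by
        rw [← h]; push_cast; ring
      exact sub_eq_zero.1 this
    · intro h
      rw [h]; push_cast; ring
  have h2 : ∀ x : ℕ → A p, lval x (enc (MvPolynomial.X 0 -
      (MvPolynomial.X 2 ^ p - MvPolynomial.X 2) * MvPolynomial.X 3)) = 0 ↔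
      x 0 = (x 2 ^ p - x 2) * x 3 := by
    intro x
    rw [henc']
    simp only [map_sub, map_mul, map_pow, MvPolynomial.aeval_X]
    exact sub_eq_zero
  have h3 : ∀ x : ℕ → A p, lval x ([((1 : ℤ), [0])] : List (ℤ × List ℕ)) ≠ 0 ↔ x 0 ≠ 0 := by
    intro x
    simp [lval]
  have h4 : ∀ x : ℕ → A p, x 1 = x 0 ^ (p ^ c) → ∀ w : Empty → A p,
      ((∀ f ∈ L'.map (fun q => enc (MvPolynomial.rename rho q)), lval x f = 0) ↔
      ∀ q ∈ L', MvPolynomial.aeval (Sum.elim (asg (x 0) (fun _ : Fin2 1 => c) w)
        (fun i : Fin k => x (4 + i))) q = 0) := by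
    intro x hx w
    rw [← rho_spec x c w hx]
    simp only [List.mem_map, forall_exists_index, and_imp, forall_apply_eq_imp_iff₂, henc',
      MvPolynomial.aeval_rename]
  constructor
  · intro hc
    obtain ⟨f, hf⟩ := exists_good (p := p)
    have hf' := hf
    obtain ⟨hf0, y, z, hyz⟩ := hf'
    have hmem := (hT f hf (fun _ => c) (fun e : Empty => e.elim)).1 hc
    obtain ⟨t, ht⟩ := (hL' _).1 hmem
    let x : ℕ → A p := fun n => match n with
      | 0 => f
      | 1 => f ^ (p ^ c)
      | 2 => y
      | 3 => z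
      | (m + 4) => if h : m < k then t ⟨m, h⟩ else 0
    have hx4 : (fun i : Fin k => x (4 + i)) = t := by
      funext i
      have : x (4 + i) = x (i + 4) := by rw [add_comm]
      rw [this]
      simp [x]
    refine ⟨x, ?_, (h3 x).2 hf0⟩
    intro g hg
    rw [List.mem_cons, List.mem_cons] at hg
    rcases hg with rfl | rfl | hg
    · exact (h1 x).2 rfl
    · exact (h2 x).2 hyz
    · refine (h4 x rfl (fun e : Empty => e.elim)).2 ?_ g hg
      rw [hx4]
      exact ht
  · rintro ⟨x, hx, hx0⟩
    have e1 : x 1 = x 0 ^ (p ^ c) := (h1 x).1 (hx _ (by simp))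
    have e2 : x 0 = (x 2 ^ p - x 2) * x 3 := (h2 x).1 (hx _ (by simp))
    have hg : Good (x 0) := ⟨(h3 x).1 hx0, _, _, e2⟩
    have e3 := (h4 x e1 (fun e : Empty => e.elim)).1 (fun f hf => hx f (by
      rw [List.mem_cons, List.mem_cons]; exact Or.inr (Or.inr hf)))
    exact (hT (x 0) hg (fun _ => c) (fun e : Empty => e.elim)).2 ((hL' _).2 ⟨_, e3⟩)

/-- The list system depends computably on `c`. -/
theorem computable_system (p : ℕ) (L : List (List (ℤ × List ℕ))) (g : List (ℤ × List ℕ)) :
    Computable (fun c : ℕ =>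
      (([((1 : ℤ), [1]), ((-1 : ℤ), List.replicate (p ^ c) 0)] :: L, g) :
        List (List (ℤ × List ℕ)) × List (ℤ × List ℕ))) := by
  apply Primrec.to_comp
  have hpow : Primrec (fun c : ℕ => p ^ c) := by
    refine (Primrec.nat_rec₁ (f := fun _ m => m * p) 1 ?_).of_eq ?_
    · exact Primrec.nat_mul.comp Primrec.snd (Primrec.const p)
    · intro n
      induction n with
      | zero => simp
      | succ n ih => simp only [ih, pow_succ]
  have hrep : Primrec (fun c : ℕ => List.replicate (p ^ c) (0 : ℕ)) := by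
    have h := Primrec.list_map (Primrec.list_range.comp hpow)
      (g := fun (_ : ℕ) (_ : ℕ) => (0 : ℕ)) (Primrec.const 0).to₂
    refine h.of_eq fun c => ?_
    simp
  have h2 : Primrec (fun c : ℕ => (((-1 : ℤ), List.replicate (p ^ c) 0) : ℤ × List ℕ)) :=
    Primrec.pair (Primrec.const (-1 : ℤ)) hrep
  have h3 : Primrec (fun c : ℕ => ([((1 : ℤ), [1]), ((-1 : ℤ), List.replicate (p ^ c) 0)] :
      List (ℤ × List ℕ))) :=
    Primrec.list_cons.comp (Primrec.const ((1 : ℤ), [1]))
      (Primrec.list_cons.comp h2 (Primrec.const []))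
  exact Primrec.pair (Primrec.list_cons.comp h3 (Primrec.const L)) (Primrec.const g)

/-- The existential theory of `F_p[t]_(t)` is undecidable (frozen form, fixed `p`). -/
theorem undecidable (hp : 13 ≤ p) :
    ¬ ComputablePred
        (fun q : List (List (ℤ × List ℕ)) × List (ℤ × List ℕ) =>
          ∃ a b : ℕ → Polynomial (ZMod p),
            (∀ i, (b i).eval 0 ≠ 0) ∧
            (∀ f ∈ q.1,
              (f.map (fun m => (m.1 : RatFunc (ZMod p)) *
                (m.2.map (fun i =>
                  algebraMap (Polynomial (ZMod p)) (RatFunc (ZMod p)) (a i) /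
                  algebraMap (Polynomial (ZMod p)) (RatFunc (ZMod p)) (b i))).prod)).sum = 0) ∧
            (q.2.map (fun m => (m.1 : RatFunc (ZMod p)) *
                (m.2.map (fun i =>
                  algebraMap (Polynomial (ZMod p)) (RatFunc (ZMod p)) (a i) /
                  algebraMap (Polynomial (ZMod p)) (RatFunc (ZMod p)) (b i))).prod)).sum ≠ 0) := by
  intro hcomp
  obtain ⟨S, hS, hSn⟩ := DP54.exists_dioph_not_computable
  obtain ⟨L, g, hLg⟩ := reduction hp hS
  apply hSn
  refine ComputablePred.computable_of_manyOneReducible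
    ⟨fun c : ℕ => (([((1 : ℤ), [1]), ((-1 : ℤ), List.replicate (p ^ c) 0)] :: L, g) :
        List (List (ℤ × List ℕ)) × List (ℤ × List ℕ)), computable_system p L g, ?_⟩ hcomp
  intro c
  rw [hLg c]
  have hval : ∀ (x : ℕ → A p) (f : List (ℤ × List ℕ)), ((lval x f : A p) : RatFunc (ZMod p)) =
      (f.map (fun m => (m.1 : RatFunc (ZMod p)) *
        (m.2.map (fun i => (x i : RatFunc (ZMod p)))).prod)).sum := by
    intro x f
    have : ((lval x f : A p) : RatFunc (ZMod p)) = (A p).subtype (lval x f) := rfl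
    rw [this, lval, map_list_sum, List.map_map]
    congr 1
    apply List.map_congr_left
    intro m _
    simp only [Function.comp_apply, map_mul, map_intCast, map_list_prod, List.map_map]
    rfl
  constructor
  · rintro ⟨x, hx, hx0⟩
    have hmem : ∀ i, ∃ a b : Polynomial (ZMod p), b.eval 0 ≠ 0 ∧
        (x i : RatFunc (ZMod p)) = algebraMap (Polynomial (ZMod p)) (RatFunc (ZMod p)) a /
        algebraMap (Polynomial (ZMod p)) (RatFunc (ZMod p)) b := fun i => (x i).2
    choose a b hb hab using hmem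
    refine ⟨a, b, hb, ?_, ?_⟩
    · intro f hf
      have := congrArg (Subtype.val) (hx f hf)
      rw [hval] at this
      simp only [hab] at this
      exact this
    · intro h
      apply hx0
      apply Subtype.ext
      rw [hval]
      simp only [hab]
      exact h
  · rintro ⟨a, b, hb, hx, hx0⟩
    let x : ℕ → A p := fun i => ⟨algebraMap (Polynomial (ZMod p)) (RatFunc (ZMod p)) (a i) /
      algebraMap (Polynomial (ZMod p)) (RatFunc (ZMod p)) (b i), a i, b i, hb i, rfl⟩
    refine ⟨x, ?_, ?_⟩
    · intro f hf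
      apply Subtype.ext
      rw [hval]
      exact hx f hf
    · intro h
      apply hx0
      have := congrArg (Subtype.val) h
      rw [hval] at this
      exact this

end LR54
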