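import Pool.Agent.LR54.Ring
import Pool.Agent.LR78.KSound
import Pool.Agent.LR78.Simul
import Pool.Agent.LR78.Buchi
import Pool.Agent.LR78.RpEmb

/-!
# LR54.FF: the function field facts used by the interpretation (statements of note 500, sections 1-3),
deduced from the function field theorems `buchi`, `simul`, `ksound_strong` over `k(s)`, `k` an
algebraic closure of `F_p`, through the embedding `t ↦ 1/s` of `F_p[t]_(t)`.
-/

namespace LR54

open Polynomial

variable {p : ℕ} [Fact p.Prime]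

/-- The identity map `A p → Rp p`. -/
noncomputable def toRp (p : ℕ) [Fact p.Prime] : A p →+* LR78.Rp p where
  toFun x := ⟨x.1, x.2⟩
  map_one' := rfl
  map_mul' _ _ := rfl
  map_zero' := rfl
  map_add' _ _ := rfl

theorem toRp_injective : Function.Injective (toRp p) := by
  intro x y h
  have := congrArg Subtype.val h
  exact Subtype.ext this

/-- Existential membership in the maximal ideal for fractions with numerator vanishing at `0`. -/
theorem exists_M_of_eval_zero (x : A p) (a b : Polynomial (ZMod p)) (hb : b.eval 0 ≠ 0)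
    (ha : a.eval 0 = 0) (hx : (x : RatFunc (ZMod p)) =
      algebraMap (Polynomial (ZMod p)) (RatFunc (ZMod p)) a /
      algebraMap (Polynomial (ZMod p)) (RatFunc (ZMod p)) b) :
    ∃ y z : A p, x = (y ^ p - y) * z := by
  have hp : p.Prime := Fact.out
  have hinj : Function.Injective (algebraMap (Polynomial (ZMod p)) (RatFunc (ZMod p))) :=
    FaithfulSMul.algebraMap_injective _ _
  obtain ⟨a', ha'⟩ : X ∣ a := by
    rw [X_dvd_iff, coeff_zero_eq_eval_zero]
    exact ha
  have hd0 : (X ^ (p - 1) - 1 : Polynomial (ZMod p)).eval 0 ≠ 0 := by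
    have : (0 : ZMod p) ^ (p - 1) = 0 := zero_pow (by have := hp.two_le; omega)
    simp [this]
  have hd : algebraMap (Polynomial (ZMod p)) (RatFunc (ZMod p)) (X ^ (p - 1) - 1) ≠ 0 := by
    intro h
    rw [map_eq_zero_iff _ hinj] at h
    exact hd0 (by rw [h]; simp)
  have hbm : algebraMap (Polynomial (ZMod p)) (RatFunc (ZMod p)) b ≠ 0 := by
    intro h
    rw [map_eq_zero_iff _ hinj] at h
    exact hb (by rw [h]; simp)
  let t : A p := ⟨algebraMap (Polynomial (ZMod p)) (RatFunc (ZMod p)) X, X, 1, by simp, by simp⟩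
  let z : A p := ⟨algebraMap (Polynomial (ZMod p)) (RatFunc (ZMod p)) a' /
    algebraMap (Polynomial (ZMod p)) (RatFunc (ZMod p)) (b * (X ^ (p - 1) - 1)),
    a', b * (X ^ (p - 1) - 1), by rw [eval_mul]; exact mul_ne_zero hb hd0, rfl⟩
  refine ⟨t, z, ?_⟩
  apply Subtype.ext
  rw [hx]
  simp only [t, z, MulMemClass.coe_mul, AddSubgroupClass.coe_sub, SubmonoidClass.coe_pow]
  rw [map_mul (algebraMap (Polynomial (ZMod p)) (RatFunc (ZMod p))) b, ← mul_div_assoc,
    div_eq_div_iff hbm (mul_ne_zero hbm hd), ha']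
  rw [← map_pow, ← map_sub, ← map_mul, ← map_mul, ← map_mul, ← map_mul]
  congr 1
  have hX : (X : Polynomial (ZMod p)) ^ p = X ^ (p - 1) * X := by
    rw [← pow_succ]
    congr 1
    have := hp.two_le
    omega
  rw [hX]
  ring

/-- Every element of `A p` is a constant plus an element of the maximal ideal. -/
theorem exists_nat_sub (x : A p) : ∃ n : ℕ, ∃ y z : A p, x - (n : A p) = (y ^ p - y) * z := by
  obtain ⟨a, b, hb, hx⟩ := x.2
  have hinj : Function.Injective (algebraMap (Polynomial (ZMod p)) (RatFunc (ZMod p))) :=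
    FaithfulSMul.algebraMap_injective _ _
  have hbm : algebraMap (Polynomial (ZMod p)) (RatFunc (ZMod p)) b ≠ 0 := by
    intro h
    rw [map_eq_zero_iff _ hinj] at h
    exact hb (by rw [h]; simp)
  refine ⟨(a.eval 0 / b.eval 0).val, ?_⟩
  refine exists_M_of_eval_zero _ (a - ((a.eval 0 / b.eval 0).val : Polynomial (ZMod p)) * b) b hb
    ?_ ?_
  · rw [eval_sub, eval_mul, eval_natCast, ZMod.natCast_zmod_val, div_mul_cancel₀ _ hb, sub_self]
  · rw [map_sub, map_mul, sub_div, mul_div_cancel_right₀ _ hbm, ← hx, map_natCast]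
    rfl

/-- The algebraic closure of `F_p`. -/
abbrev kk (p : ℕ) [Fact p.Prime] : Type := AlgebraicClosure (ZMod p)

/-- The embedding into `k(s)` and its properties. -/
theorem exists_emb (p : ℕ) [Fact p.Prime] : ∃ ψ : A p →+* RatFunc (kk p),
    Function.Injective ψ ∧ (∀ x, LR78.regInf (ψ x)) ∧
    (∀ f : A p, f ≠ 0 → (∃ y z : A p, f = (y ^ p - y) * z) →
      (ψ f).num.natDegree < (ψ f).denom.natDegree) := by
  obtain ⟨φ, h1, h2, h3⟩ := LR78.exists_embedding p (kk p)
  refine ⟨φ.toRingHom.comp (toRp p), ?_, fun x => h2 _, ?_⟩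
  · exact h1.comp toRp_injective
  · rintro f hf ⟨y, z, hyz⟩
    refine h3 (toRp p f) ?_ ⟨toRp p y, toRp p z, ?_⟩
    · intro h
      exact hf (toRp_injective (by rw [h, map_zero]))
    · rw [← map_pow, ← map_sub, ← map_mul, ← hyz]

/-- Nonconstant elements stay nonconstant. -/
theorem nonconst_emb {ψ : A p →+* RatFunc (kk p)} (hinj : Function.Injective ψ)
    (h3 : ∀ f : A p, f ≠ 0 → (∃ y z : A p, f = (y ^ p - y) * z) →
      (ψ f).num.natDegree < (ψ f).denom.natDegree) {x : A p} (hx : Nonconst x) (c : kk p) :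
    ψ x ≠ RatFunc.C c := by
  intro h
  obtain ⟨n, y, z, hn⟩ := exists_nat_sub x
  have h4 : x - (n : A p) ≠ 0 := sub_ne_zero.2 (hx n)
  have h5 := h3 _ h4 ⟨y, z, hn⟩
  have h6 : ψ (x - (n : A p)) = RatFunc.C (c - n) := by
    rw [map_sub, h, map_natCast, map_sub, map_natCast]
  rw [h6, RatFunc.num_C, RatFunc.denom_C, natDegree_C, natDegree_one] at h5
  exact lt_irrefl _ h5

theorem algebraMap_eq_natCast (a : ZMod p) :
    algebraMap (ZMod p) (RatFunc (kk p)) a = ((a.val : ℕ) : RatFunc (kk p)) := by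
  conv_lhs => rw [← ZMod.natCast_zmod_val a]
  rw [map_natCast]

theorem B_emb (ψ : A p →+* RatFunc (kk p)) {x y : A p} (h : B x y) (a : ZMod p) :
    IsSquare ((ψ x + algebraMap (ZMod p) (RatFunc (kk p)) a) *
      (ψ y + algebraMap (ZMod p) (RatFunc (kk p)) a)) := by
  have := (h a.val (ZMod.val_lt a)).map ψ
  rw [map_mul, map_add, map_add, map_natCast] at this
  rw [algebraMap_eq_natCast]
  exact this

/-- Section 1: the squares trick. -/
theorem B_frob (hp : 13 ≤ p) {x y : A p} (hx : Nonconst x) (h : B x y) :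
    ∃ u : ℕ, y = x ^ (p ^ u) ∨ x = y ^ (p ^ u) := by
  obtain ⟨ψ, hinj, _, h3⟩ := exists_emb p
  obtain ⟨u, hu⟩ := LR78.buchi p hp (fun c => nonconst_emb hinj h3 hx c)
    (fun a => B_emb ψ h a)
  refine ⟨u, ?_⟩
  rw [← map_pow, ← map_pow] at hu
  rcases hu with hu | hu
  · exact Or.inl (hinj hu)
  · exact Or.inr (hinj hu)

/-- Section 1: simultaneous Frobenius powers. -/
theorem Fr_frob (hp : 13 ≤ p) {f x y : A p} (hf : Nonconst f) {s : ℕ}
    (h : ∀ c : ℕ, c < 4 → B (x + (c : A p) * f) (y + (c : A p) * f ^ (p ^ s))) :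
    y = x ^ (p ^ s) := by
  obtain ⟨ψ, hinj, h2, h3⟩ := exists_emb p
  have hden : (ψ f).denom.natDegree ≠ 0 := by
    intro h0
    have h4 := h2 f
    rw [LR78.regInf, h0] at h4
    obtain ⟨c, hc⟩ := LR78.exists_C_of_dg_eq_zero (x := ψ f) (by
      rw [LR78.dg, h0]
      omega)
    exact nonconst_emb hinj h3 hf c hc
  obtain ⟨S, hS, hsum⟩ := LR78.poles_sum (ψ f)
  obtain ⟨P, hP⟩ : S.Nonempty := by
    by_contra hne
    rw [Finset.not_nonempty_iff_eq_empty] at hne
    rw [hne, Finset.sum_empty] at hsum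
    exact hden (by exact_mod_cast hsum.symm)
  have h5 := LR78.simul p (x := ψ x) (y := ψ y) (f := ψ f) hp (s := s) ((hS P).1 hP)
    (fun c hc a => by
      have := B_emb ψ (h c hc) a
      rw [map_add, map_mul, map_natCast, map_add, map_mul, map_natCast, map_pow] at this
      exact this)
  rw [← map_pow] at h5
  exact hinj h5

theorem AS_emb (ψ : A p →+* RatFunc (kk p)) {x : A p} (h : AS x) : LR78.asr p (ψ x) := by
  obtain ⟨v, hv⟩ := h
  exact ⟨ψ v, by rw [hv, map_sub, map_pow]⟩

theorem PF_emb (ψ : A p →+* RatFunc (kk p)) (P : Polynomial (ZMod p)) (g : A p) :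
    ψ (PF P g) = LR78.act p P (ψ g) := by
  rw [PF, LR78.act, Polynomial.sum, Polynomial.sum, map_sum]
  refine Finset.sum_congr rfl fun j _ => ?_
  rw [map_mul, map_natCast, map_pow, algebraMap_eq_natCast]

/-- Sections 2, 3: the key relation forces a palindromic square root. -/
theorem key_square (hp : 13 ≤ p) {f : A p} (hf : Good f) {D : ℕ} (hD : 1 ≤ D)
    (P : Polynomial (ZMod p)) (hdeg : P.natDegree = 2 * D) (h0 : P.coeff 0 = 1)
    (hrev : P.reverse = P)
    (h : ∀ b : ℕ, 0 < b → b < p → ∃ g z : A p, g * (f + (b : A p)) = 1 ∧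
      AS (z * z ^ (p ^ (2 * D + 4)) - g * PF P g ^ (p ^ (D + 4))) ∧
      AS (z * z ^ (p ^ (2 * D + 5)) - g * PF P g ^ (p ^ (D + 5))) ∧
      AS (z * g ^ (p ^ (2 * D + 4)) - g * z ^ (p ^ (D + 4)))) :
    ∃ S : Polynomial (ZMod p), S.natDegree = D ∧ S.coeff 0 ≠ 0 ∧ S.reverse = S ∧ P = S ^ 2 := by
  obtain ⟨ψ, hinj, h2, h3⟩ := exists_emb p
  obtain ⟨S, hS, hSD, hrefl, hS0, hSD'⟩ := LR78.ksound_strong (k := kk p) (p := p) hp (f := ψ f)
    (fun h => hf.1 (hinj (by rw [h, map_zero]))) (h3 f hf.1 hf.2) (P := P) (D := D) hD hdeg.le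
    (fun j hj => by
      conv_lhs => rw [← hrev]
      rw [coeff_reverse, hdeg, revAt_le hj])
    (by rw [h0]; exact one_ne_zero)
    (fun b hb => by
      obtain ⟨g, z, hg, h4, h5, h6⟩ := h b.val
        (Nat.pos_of_ne_zero fun h => hb ((ZMod.val_eq_zero b).1 h)) (ZMod.val_lt b)
      refine ⟨ψ g, ψ z, ?_, h2 z, ?_, ?_, ?_⟩
      · rw [algebraMap_eq_natCast, ← map_natCast ψ, ← map_add, ← map_mul, hg, map_one]
      · have := AS_emb ψ h4
        rw [map_sub, map_mul, map_mul, map_pow, map_pow, PF_emb] at this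
        exact this
      · have := AS_emb ψ h5
        rw [map_sub, map_mul, map_mul, map_pow, map_pow, PF_emb] at this
        exact this
      · have := AS_emb ψ h6
        rw [map_sub, map_mul, map_mul, map_pow, map_pow] at this
        exact this)
  have hnat : S.natDegree = D := le_antisymm hSD (le_natDegree_of_ne_zero hSD')
  refine ⟨S, hnat, hS0, ?_, ?_⟩
  · rw [reverse, hnat, hrefl]
  · rw [← hS, sq]

end LR54
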