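import Pool.Agent.LR54.Ring

/-!
# LR54.KConv: the easy direction of the key relation (note 500, end of section 2).
`z F^N z = Σ s_i s_j F^i g F^(N+j) g ~ Σ s_i s_j g F^(N+j-i) g` (`x^(p^i) - x` is in `(F-1) A`,
telescoping), and `s_i = s_(D-i)`.
-/

namespace LR54

open Polynomial

variable {p : ℕ} [Fact p.Prime]

theorem AS_zero : AS (0 : A p) := ⟨0, by
  rw [zero_pow (Fact.out : p.Prime).ne_zero, sub_zero]⟩

theorem AS_add {x y : A p} (hx : AS x) (hy : AS y) : AS (x + y) := by
  obtain ⟨u, rfl⟩ := hx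
  obtain ⟨v, rfl⟩ := hy
  exact ⟨u + v, by rw [add_pow_char]; ring⟩

theorem AS_natMul (n : ℕ) {x : A p} (hx : AS x) : AS ((n : A p) * x) := by
  induction n with
  | zero => simpa using AS_zero
  | succ n ih =>
    have : ((n + 1 : ℕ) : A p) * x = (n : A p) * x + x := by push_cast; ring
    rw [this]
    exact AS_add ih hx

theorem AS_sum {ι : Type} (s : Finset ι) (f : ι → A p) (h : ∀ i ∈ s, AS (f i)) :
    AS (∑ i ∈ s, f i) := by
  classical
  induction s using Finset.induction_on with
  | empty => simpa using AS_zero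
  | insert a s ha ih =>
    rw [Finset.sum_insert ha]
    exact AS_add (h a (Finset.mem_insert_self _ _))
      (ih fun i hi => h i (Finset.mem_insert_of_mem hi))

theorem AS_frob (x : A p) (i : ℕ) : AS (x ^ (p ^ i) - x) := by
  induction i with
  | zero => simpa using AS_zero
  | succ i ih =>
    have h : x ^ (p ^ (i + 1)) - x = ((x ^ (p ^ i)) ^ p - x ^ (p ^ i)) + (x ^ (p ^ i) - x) := by
      rw [← pow_mul, ← pow_succ]; ring
    rw [h]
    exact AS_add ⟨_, rfl⟩ ih

/-- Frobenius fixes casts. -/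
theorem cast_pow_frob (n k : ℕ) : ((n : A p)) ^ (p ^ k) = (n : A p) := by
  induction k with
  | zero => simp
  | succ k ih =>
    rw [pow_succ, pow_mul, ih]
    have h := map_natCast (frobenius (A p) p) n
    rwa [frobenius_def] at h

theorem PF_range (P : Polynomial (ZMod p)) (g : A p) :
    PF P g = ∑ i ∈ Finset.range (P.natDegree + 1), ((P.coeff i).val : A p) * g ^ (p ^ i) := by
  unfold PF
  rw [Polynomial.sum_over_range]
  intro n
  simp

/-- The map `F_p → A_p`. -/
theorem val_hom (a : ZMod p) : ((a.val : ℕ) : A p) = ZMod.castHom (dvd_refl p) (A p) a := by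
  rw [ZMod.castHom_apply, ZMod.natCast_val]

theorem PF_add (P Q : Polynomial (ZMod p)) (g : A p) : PF (P + Q) g = PF P g + PF Q g := by
  unfold PF
  refine Polynomial.sum_add_index P Q _ (fun n => by simp) (fun n a b => ?_)
  rw [val_hom, val_hom, val_hom, map_add, add_mul]

theorem PF_monomial (n : ℕ) (a : ZMod p) (g : A p) :
    PF (monomial n a) g = (a.val : A p) * g ^ (p ^ n) := by
  unfold PF
  rw [Polynomial.sum_monomial_index]
  simp

theorem PF_monomial_mul (n : ℕ) (a : ZMod p) (Q : Polynomial (ZMod p)) (g : A p) :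
    PF (monomial n a * Q) g = (a.val : A p) * (PF Q g) ^ (p ^ n) := by
  induction Q using Polynomial.induction_on' with
  | add P Q hP hQ => rw [mul_add, PF_add, hP, hQ, PF_add, add_pow_char_pow]; ring
  | monomial m b =>
    rw [monomial_mul_monomial, PF_monomial, PF_monomial, mul_pow, cast_pow_frob, val_hom,
      val_hom, val_hom, map_mul, ← pow_mul, ← pow_add, add_comm m n]
    ring

theorem PF_mul (P Q : Polynomial (ZMod p)) (g : A p) : PF (P * Q) g = PF P (PF Q g) := by
  induction P using Polynomial.induction_on' with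
  | add P P' hP hQ => rw [add_mul, PF_add, hP, hQ, PF_add]
  | monomial m b => rw [PF_monomial_mul, PF_monomial]

theorem key_aux {D : ℕ} (S : Polynomial (ZMod p)) (hdeg : S.natDegree = D)
    (hrev : S.reverse = S) (g w : A p) (M : ℕ) :
    AS (PF S g * w ^ (p ^ (D + M)) - g * PF S w ^ (p ^ M)) := by
  have hs : ∀ i ∈ Finset.range (D + 1), S.coeff (D - i) = S.coeff i := by
    intro i hi
    have hi' : i ≤ D := Nat.lt_succ_iff.mp (Finset.mem_range.mp hi)
    have h1 : S.reverse.coeff i = S.coeff i := by rw [hrev]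
    rw [Polynomial.coeff_reverse, hdeg, Polynomial.revAt_le hi'] at h1
    exact h1
  have h2 : PF S w ^ (p ^ M) = ∑ i ∈ Finset.range (D + 1),
      ((S.coeff i).val : A p) * w ^ (p ^ (D - i + M)) := by
    rw [PF_range, hdeg, sum_pow_char_pow]
    rw [← Finset.sum_range_reflect]
    refine Finset.sum_congr rfl fun i hi => ?_
    have hi' : i ≤ D := Nat.lt_succ_iff.mp (Finset.mem_range.mp hi)
    have e : D + 1 - 1 - i = D - i := by omega
    rw [e, hs i hi, mul_pow, cast_pow_frob, ← pow_mul, ← pow_add]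
  rw [h2, PF_range, hdeg, Finset.sum_mul, Finset.mul_sum, ← Finset.sum_sub_distrib]
  refine AS_sum _ _ fun i hi => ?_
  have hi' : i ≤ D := Nat.lt_succ_iff.mp (Finset.mem_range.mp hi)
  have h3 : w ^ (p ^ (D + M)) = (w ^ (p ^ (D - i + M))) ^ (p ^ i) := by
    rw [← pow_mul, ← pow_add]
    congr 2
    omega
  have h4 : ((S.coeff i).val : A p) * g ^ (p ^ i) * w ^ (p ^ (D + M)) -
      g * (((S.coeff i).val : A p) * w ^ (p ^ (D - i + M))) =
      ((S.coeff i).val : A p) * ((g * w ^ (p ^ (D - i + M))) ^ (p ^ i) -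
        g * w ^ (p ^ (D - i + M))) := by
    rw [h3, mul_pow]
    ring
  rw [h4]
  exact AS_natMul _ (AS_frob _ _)

/-- Section 2, converse: `z = S(F) g` works. -/
theorem key_conv {D : ℕ} (S : Polynomial (ZMod p)) (hdeg : S.natDegree = D)
    (h0 : S.coeff 0 ≠ 0) (hrev : S.reverse = S) (g : A p) :
    AS (PF S g * PF S g ^ (p ^ (2 * D + 4)) - g * PF (S ^ 2) g ^ (p ^ (D + 4))) ∧
    AS (PF S g * PF S g ^ (p ^ (2 * D + 5)) - g * PF (S ^ 2) g ^ (p ^ (D + 5))) ∧
    AS (PF S g * g ^ (p ^ (2 * D + 4)) - g * PF S g ^ (p ^ (D + 4))) := by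
  have e1 : 2 * D + 4 = D + (D + 4) := by ring
  have e2 : 2 * D + 5 = D + (D + 5) := by ring
  rw [e1, e2, sq, PF_mul]
  exact ⟨key_aux S hdeg hrev g _ _, key_aux S hdeg hrev g _ _, key_aux S hdeg hrev g _ _⟩

end LR54
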