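import Pool.Agent.LR54.ED
import Pool.Agent.LR54.FF

/-!
# LR54.MD: mixed definability. Variables: a parameter `f` (a nonzero element of the maximal
ideal), natural numbers `v i` (represented by `f^(p^(v i))`), ring elements `w j`.
-/

namespace LR54

variable {p : ℕ} [Fact p.Prime] {α β : Type}

/-- The assignment. -/
noncomputable def asg (f : A p) (v : α → ℕ) (w : β → A p) : Option (α ⊕ β) → A p :=
  fun o => o.elim f (Sum.elim (fun i => f ^ (p ^ v i)) w)

/-- Mixed definability, uniformly in the parameter `f`. -/
def MD (T : A p → (α → ℕ) → (β → A p) → Prop) : Prop :=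
  ∃ S : Set (Option (α ⊕ β) → A p), ED S ∧
    ∀ f, Good f → ∀ v w, T f v w ↔ asg f v w ∈ S

/-- A function with mixed definable graph. -/
def MF (g : A p → (α → ℕ) → (β → A p) → A p) : Prop :=
  MD (fun f (v : α → ℕ) (w : Option β → A p) => w none = g f v (w ∘ some))

theorem MD.ext {S T : A p → (α → ℕ) → (β → A p) → Prop} (h : MD S)
    (e : ∀ f, Good f → ∀ v w, S f v w ↔ T f v w) : MD T := by
  obtain ⟨S', hS', h1⟩ := h
  exact ⟨S', hS', fun f hf v w => by rw [← e f hf v w]; exact h1 f hf v w⟩

theorem MD.and {S T : A p → (α → ℕ) → (β → A p) → Prop} (h : MD S) (h' : MD T) :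
    MD (fun f v w => S f v w ∧ T f v w) := by
  obtain ⟨S', hS', h1⟩ := h
  obtain ⟨T', hT', h2⟩ := h'
  exact ⟨_, ED.inter hS' hT', fun f hf v w => and_congr (h1 f hf v w) (h2 f hf v w)⟩

theorem MD.ballFin {γ : Type} [Finite γ] {S : A p → (α → ℕ) → (β → A p) → γ → Prop}
    (h : ∀ j, MD (fun f v w => S f v w j)) : MD (fun f v w => ∀ j, S f v w j) := by
  choose S' hS' h1 using h
  refine ⟨_, ED.ballFin (P := fun x j => x ∈ S' j) (fun j => hS' j), fun f hf v w => ?_⟩
  exact forall_congr' (fun j => h1 j f hf v w)

/-- Ring existential quantifier. -/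
theorem MD.exA {S : A p → (α → ℕ) → (β → A p) → A p → Prop}
    (h : MD (fun f (v : α → ℕ) (w : Option β → A p) => S f v (w ∘ some) (w none))) :
    MD (fun f v w => ∃ x, S f v w x) := by
  obtain ⟨S', hS', h1⟩ := h
  let h0 : Option (α ⊕ Option β) → (Option (Option (α ⊕ β)) → A p) → A p :=
    fun o u => o.elim (u (some none)) (Sum.elim (fun i => u (some (some (Sum.inl i))))
      (fun j => j.elim (u none) (fun j => u (some (some (Sum.inr j))))))
  have hh0 : ∀ o, Term (h0 o) := by
    rintro (_ | i | _ | j)
    · exact Term.proj _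
    · exact Term.proj _
    · exact Term.proj _
    · exact Term.proj _
  have h2 := ED.subst hS' hh0
  have h3 : ED {v : Option (α ⊕ β) → A p | ∃ x, (fun o => h0 o (fun o' => o'.elim x v)) ∈ S'} := by
    refine ED.ex (P := fun v x => (fun o => h0 o (fun o' => o'.elim x v)) ∈ S') ?_
    refine ED.ext h2 (fun u => ?_)
    have : (fun o' : Option (Option (α ⊕ β)) => o'.elim (u none) (u ∘ some)) = u := by
      funext o'
      cases o' <;> rfl
    simp only [Set.mem_ofPred_eq, this]
  refine ⟨_, h3, fun f hf v w => ?_⟩
  simp only [Set.mem_ofPred_eq]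
  refine exists_congr (fun x => ?_)
  have h4 : S f v w x ↔ asg f v (fun o : Option β => o.elim x w) ∈ S' :=
    h1 f hf v (fun o => o.elim x w)
  have e2 : (fun o => h0 o (fun o' => o'.elim x (asg f v w)))
      = asg f v (fun o : Option β => o.elim x w) := by
    funext o
    rcases o with _ | i | _ | j <;> rfl
  rw [e2]
  exact h4

/-- Reindexing. -/
theorem MD.reindex {α' β' : Type} (g : α → α') (h : β → β')
    {S : A p → (α → ℕ) → (β → A p) → Prop} (hS : MD S) :
    MD (fun f (v : α' → ℕ) (w : β' → A p) => S f (v ∘ g) (w ∘ h)) := by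
  obtain ⟨S', hS', h1⟩ := hS
  have h2 := ED.subst (α := Option (α' ⊕ β')) hS'
    (h := fun o u => u (o.map (Sum.map g h))) (fun o => Term.proj _)
  refine ⟨_, h2, fun f hf v w => (h1 f hf (v ∘ g) (w ∘ h)).trans ?_⟩
  have e2 : (fun o : Option (α ⊕ β) => asg f v w (o.map (Sum.map g h)))
      = asg f (v ∘ g) (w ∘ h) := by
    funext o
    rcases o with _ | i | j <;> rfl
  simp only [Set.mem_ofPred_eq, e2]

/-- Substitution of a definable function for a ring variable. -/
theorem MD.subst {S : A p → (α → ℕ) → (β → A p) → A p → Prop}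
    (h : MD (fun f (v : α → ℕ) (w : Option β → A p) => S f v (w ∘ some) (w none)))
    {g : A p → (α → ℕ) → (β → A p) → A p} (hg : MF g) :
    MD (fun f v w => S f v w (g f v w)) := by
  have h2 : MD (fun f v w => ∃ x, x = g f v w ∧ S f v w x) :=
    MD.exA (S := fun f v w x => x = g f v w ∧ S f v w x) (MD.and hg h)
  exact h2.ext (fun f _ v w => by simp)

theorem MD.eq {g h : A p → (α → ℕ) → (β → A p) → A p} (hg : MF g) (hh : MF h) :
    MD (fun f v w => g f v w = h f v w) := by
  refine MD.subst (S := fun f v w x => x = h f v w) hh hg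

theorem MF.ext {g h : A p → (α → ℕ) → (β → A p) → A p} (hg : MF g)
    (e : ∀ f, Good f → ∀ v w, g f v w = h f v w) : MF h :=
  MD.ext hg (fun f hf v w => by rw [e f hf v (w ∘ some)])

/-- Any term in `f`, `f^(p^(v i))` and `w j`. -/
theorem MF.term {q : (Option (α ⊕ β) → A p) → A p} (hq : Term q) :
    MF (fun f v w => q (asg f v w)) := by
  obtain ⟨r, hr⟩ := hq
  have h1 : Term (fun u : Option (α ⊕ Option β) → A p =>
      q (fun o => u (o.map (Sum.map id some)))) :=
    Term.comp ⟨r, hr⟩ (h := fun o u => u (o.map (Sum.map id some))) (fun o => Term.proj _)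
  refine ⟨_, ED.eq (Term.proj (some (Sum.inr none))) h1, fun f _ v w => ?_⟩
  have e2 : (fun o : Option (α ⊕ β) => asg f v w (o.map (Sum.map id some)))
      = asg f v (w ∘ some) := by
    funext o
    rcases o with _ | i | j <;> rfl
  simp only [Set.mem_ofPred_eq, e2]
  rfl

theorem MF.par : MF (fun (f : A p) (_ : α → ℕ) (_ : β → A p) => f) :=
  MF.ext (MF.term (q := fun u => u none) (Term.proj _)) (fun _ _ _ _ => rfl)

theorem MF.num (i : α) : MF (fun (f : A p) (v : α → ℕ) (_ : β → A p) => f ^ (p ^ v i)) :=
  MF.ext (MF.term (q := fun u => u (some (Sum.inl i))) (Term.proj _)) (fun _ _ _ _ => rfl)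

theorem MF.var (j : β) : MF (fun (_ : A p) (_ : α → ℕ) (w : β → A p) => w j) :=
  MF.ext (MF.term (q := fun u => u (some (Sum.inr j))) (Term.proj _)) (fun _ _ _ _ => rfl)

theorem MF.nat (n : ℕ) : MF (fun (_ : A p) (_ : α → ℕ) (_ : β → A p) => (n : A p)) :=
  MF.ext (MF.term (q := fun _ => (n : A p)) (Term.nat n)) (fun _ _ _ _ => rfl)

/-- A binary term applied to two definable functions. -/
theorem MF.term2 {g h : A p → (α → ℕ) → (β → A p) → A p} (hg : MF g) (hh : MF h)
    {q : (Fin 2 → A p) → A p} (hq : Term q) :
    MF (fun f v w => q ![g f v w, h f v w]) := by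
  have hq1 : MF (α := α) (β := Option (Option β))
      (fun _ _ w => q ![w none, w (some none)]) := by
    have h1 : Term (fun u : Option (α ⊕ Option (Option β)) → A p =>
        q (fun b => ![u (some (Sum.inr none)), u (some (Sum.inr (some none)))] b)) := by
      refine Term.comp hq (h := fun b u =>
        ![u (some (Sum.inr none)), u (some (Sum.inr (some none)))] b) (fun b => ?_)
      fin_cases b
      · exact Term.proj _
      · exact Term.proj _
    exact MF.ext (MF.term h1) (fun _ _ _ _ => rfl)
  have hg1 : MD (fun f (v : α → ℕ) (w : Option (Option (Option β)) → A p) =>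
      w (some none) = g f v (fun j => w (some (some (some j))))) := by
    have := MD.reindex (α' := α) (β' := Option (Option (Option β))) id
      (fun o : Option β => o.elim (some none) (fun j => some (some (some j)))) hg
    exact this.ext (fun _ _ _ _ => Iff.rfl)
  have hh1 : MD (fun f (v : α → ℕ) (w : Option (Option (Option β)) → A p) =>
      w (some (some none)) = h f v (fun j => w (some (some (some j))))) := by
    have := MD.reindex (α' := α) (β' := Option (Option (Option β))) id
      (fun o : Option β => o.elim (some (some none)) (fun j => some (some (some j)))) hh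
    exact this.ext (fun _ _ _ _ => Iff.rfl)
  have hall := MD.and (MD.and hg1 hh1) hq1
  have hr := MD.reindex (α' := α) (β' := Option (Option (Option β))) id
      (fun o : Option (Option (Option β)) => match o with
        | none => some (some none)
        | some none => none
        | some (some none) => some none
        | some (some (some j)) => some (some (some j))) hall
  have h3 : MD (fun f (v : α → ℕ) (w : Option β → A p) =>
      ∃ x y, (x = g f v (w ∘ some) ∧ y = h f v (w ∘ some)) ∧ w none = q ![x, y]) := by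
    refine MD.exA (S := fun f v (w : Option β → A p) x =>
      ∃ y, (x = g f v (w ∘ some) ∧ y = h f v (w ∘ some)) ∧ w none = q ![x, y]) ?_
    refine MD.exA (S := fun f v (w : Option (Option β) → A p) y =>
      ((w none) = g f v ((w ∘ some) ∘ some) ∧ y = h f v ((w ∘ some) ∘ some)) ∧
        (w ∘ some) none = q ![(w none), y]) ?_
    have hr2 := MD.reindex (α' := α) (β' := Option (Option (Option β))) id
      (fun o : Option (Option (Option β)) => match o with
        | none => some (some none)
        | some none => some none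
        | some (some none) => none
        | some (some (some j)) => some (some (some j))) hall
    exact hr2.ext (fun _ _ _ _ => Iff.rfl)
  refine MD.ext h3 (fun f _ v w => ?_)
  simp

theorem MF.add {g h : A p → (α → ℕ) → (β → A p) → A p} (hg : MF g) (hh : MF h) :
    MF (fun f v w => g f v w + h f v w) :=
  MF.ext (MF.term2 hg hh (q := fun u => u 0 + u 1) (Term.add (Term.proj _) (Term.proj _)))
    (fun _ _ _ _ => rfl)

theorem MF.mul {g h : A p → (α → ℕ) → (β → A p) → A p} (hg : MF g) (hh : MF h) :
    MF (fun f v w => g f v w * h f v w) :=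
  MF.ext (MF.term2 hg hh (q := fun u => u 0 * u 1) (Term.mul (Term.proj _) (Term.proj _)))
    (fun _ _ _ _ => rfl)

theorem MF.sub {g h : A p → (α → ℕ) → (β → A p) → A p} (hg : MF g) (hh : MF h) :
    MF (fun f v w => g f v w - h f v w) :=
  MF.ext (MF.term2 hg hh (q := fun u => u 0 - u 1) (Term.sub (Term.proj _) (Term.proj _)))
    (fun _ _ _ _ => rfl)

theorem MF.pow {g : A p → (α → ℕ) → (β → A p) → A p} (hg : MF g) (n : ℕ) :
    MF (fun f v w => g f v w ^ n) :=
  MF.ext (MF.term2 hg hg (q := fun u => u 0 ^ n) (Term.pow (Term.proj _) n))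
    (fun _ _ _ _ => rfl)

theorem MD.isSquare {g : A p → (α → ℕ) → (β → A p) → A p} (hg : MF g) :
    MD (fun f v w => IsSquare (g f v w)) := by
  have h0 : MF (fun (_ : A p) (_ : α → ℕ) (w : Option (Option β) → A p) =>
      w none * w none) := MF.mul (MF.var none) (MF.var none)
  have h1 : MD (fun f (v : α → ℕ) (w : Option β → A p) => IsSquare (w none)) := by
    have h2 : MD (fun f (v : α → ℕ) (w : Option β → A p) => ∃ r, w none = r * r) := by
      refine MD.exA (S := fun f v (w : Option β → A p) r => w none = r * r) ?_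
      have h3 : MD (fun f (v : α → ℕ) (w : Option (Option β) → A p) =>
          w (some none) = w none * w none) := MD.eq (MF.var (some none)) h0
      exact h3.ext (fun _ _ _ _ => Iff.rfl)
    exact h2.ext (fun _ _ _ _ => Iff.rfl)
  exact MD.subst (S := fun f v w x => IsSquare x) h1 hg

theorem MD.as {g : A p → (α → ℕ) → (β → A p) → A p} (hg : MF g) :
    MD (fun f v w => AS (g f v w)) := by
  have h0 : MF (fun (_ : A p) (_ : α → ℕ) (w : Option (Option β) → A p) =>
      w none ^ p - w none) := MF.sub (MF.pow (MF.var none) p) (MF.var none)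
  have h1 : MD (fun f (v : α → ℕ) (w : Option β → A p) => AS (w none)) := by
    have h2 : MD (fun f (v : α → ℕ) (w : Option β → A p) => ∃ r, w none = r ^ p - r) := by
      refine MD.exA (S := fun f v (w : Option β → A p) r => w none = r ^ p - r) ?_
      have h3 : MD (fun f (v : α → ℕ) (w : Option (Option β) → A p) =>
          w (some none) = w none ^ p - w none) := MD.eq (MF.var (some none)) h0
      exact h3.ext (fun _ _ _ _ => Iff.rfl)
    exact h2.ext (fun _ _ _ _ => Iff.rfl)
  exact MD.subst (S := fun f v w x => AS x) h1 hg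

theorem MD.b {g h : A p → (α → ℕ) → (β → A p) → A p} (hg : MF g) (hh : MF h) :
    MD (fun f v w => B (g f v w) (h f v w)) := by
  have h1 : MD (fun f v w => ∀ a : Fin p,
      IsSquare ((g f v w + ((a : ℕ) : A p)) * (h f v w + ((a : ℕ) : A p)))) :=
    MD.ballFin (fun a => MD.isSquare (MF.mul (MF.add hg (MF.nat a)) (MF.add hh (MF.nat a))))
  refine h1.ext (fun f _ v w => ?_)
  constructor
  · intro h2 a ha
    exact h2 ⟨a, ha⟩
  · intro h2 a
    exact h2 a a.2

end LR54
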