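import Pool.Agent.LR54.MD

/-!
# LR54.MDN: numbers. Uses `B_frob` and `Fr_frob`.
-/

namespace LR54

open Polynomial

variable {p : ℕ} [Fact p.Prime] {α β : Type}

/-- Elements of the maximal ideal. -/
def InI (x : A p) : Prop := ∃ a b : Polynomial (ZMod p), b.eval 0 ≠ 0 ∧ a.eval 0 = 0 ∧
    (x : RatFunc (ZMod p)) = algebraMap (Polynomial (ZMod p)) (RatFunc (ZMod p)) a /
      algebraMap (Polynomial (ZMod p)) (RatFunc (ZMod p)) b

theorem algMap_ne_zero {b : Polynomial (ZMod p)} (hb : b.eval 0 ≠ 0) :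
    algebraMap (Polynomial (ZMod p)) (RatFunc (ZMod p)) b ≠ 0 := by
  intro h
  rw [FaithfulSMul.algebraMap_eq_zero_iff] at h
  exact hb (by rw [h]; simp)

theorem InI.mul {x : A p} (hx : InI x) (z : A p) : InI (x * z) := by
  obtain ⟨a, b, hb, ha, hx⟩ := hx
  obtain ⟨c, d, hd, hz⟩ := z.2
  refine ⟨a * c, b * d, by rw [eval_mul]; exact mul_ne_zero hb hd, by simp [ha], ?_⟩
  have : ((x * z : A p) : RatFunc (ZMod p)) = (x : RatFunc (ZMod p)) * (z : RatFunc (ZMod p)) := rfl
  rw [this, hx, hz, map_mul, map_mul, div_mul_div_comm]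

theorem InI.frob_sub (y : A p) : InI (y ^ p - y) := by
  obtain ⟨a, b, hb, hy⟩ := y.2
  refine ⟨a ^ p - a * b ^ (p - 1), b ^ p, by rw [eval_pow]; exact pow_ne_zero _ hb, ?_, ?_⟩
  · rw [eval_sub, eval_mul, eval_pow, eval_pow, ZMod.pow_card, ZMod.pow_card_sub_one_eq_one hb,
      mul_one, sub_self]
  · have h1 : ((y ^ p - y : A p) : RatFunc (ZMod p)) =
      (y : RatFunc (ZMod p)) ^ p - (y : RatFunc (ZMod p)) := rfl
    have hb' := algMap_ne_zero hb
    have hp : ∀ z : RatFunc (ZMod p), z ^ p = z ^ (p - 1) * z := by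
      intro z
      rw [← pow_succ]
      congr 1
      have := (Fact.out : p.Prime).pos
      omega
    rw [h1, hy, map_sub, map_pow, map_mul, map_pow, map_pow, div_pow, sub_div]
    congr 1
    rw [div_eq_div_iff hb' (pow_ne_zero _ hb'), hp (algebraMap _ _ b)]
    ring

theorem InI.not_natCast {x : A p} (hx : InI x) (h0 : x ≠ 0) (c : ℕ) : x ≠ (c : A p) := by
  rintro rfl
  obtain ⟨a, b, hb, ha, hx⟩ := hx
  have hb' := algMap_ne_zero hb
  have h1 : (((c : A p) : A p) : RatFunc (ZMod p)) =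
      algebraMap (Polynomial (ZMod p)) (RatFunc (ZMod p)) (c : Polynomial (ZMod p)) := by
    simp
  rw [h1, eq_div_iff hb', ← map_mul] at hx
  have h2 := FaithfulSMul.algebraMap_injective _ _ hx
  have h3 := congrArg (eval 0) h2
  rw [eval_mul, ha, eval_natCast] at h3
  rcases mul_eq_zero.1 h3 with h4 | h4
  · apply h0
    rw [CharP.cast_eq_zero_iff (ZMod p) p] at h4
    rw [CharP.cast_eq_zero_iff (A p) p]
    exact h4
  · exact hb h4

theorem Good.inI {f : A p} (hf : Good f) : InI f := by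
  obtain ⟨_, y, z, rfl⟩ := hf
  exact (InI.frob_sub y).mul z

theorem Good.not_unit {f : A p} (hf : Good f) (g : A p) : f * g ≠ 1 := by
  intro h
  have h1 := hf.inI.mul g
  rw [h] at h1
  exact h1.not_natCast one_ne_zero 1 (by simp)

theorem Good.nonconst {f : A p} (hf : Good f) : Nonconst f :=
  fun c => hf.inI.not_natCast hf.1 c

theorem Good.pow_ne {f : A p} (hf : Good f) {n m : ℕ} (hnm : n < m) :
    f ^ (p ^ n) ≠ f ^ (p ^ m) := by
  intro h
  have hlt : p ^ n < p ^ m := Nat.pow_lt_pow_right (Fact.out : p.Prime).one_lt hnm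
  obtain ⟨k, hk⟩ : ∃ k, p ^ m = p ^ n + (k + 1) := ⟨p ^ m - p ^ n - 1, by omega⟩
  rw [hk, pow_add] at h
  have h1 : f ^ (p ^ n) * (f ^ (k + 1) - 1) = 0 := by
    rw [mul_sub, mul_one, ← h, sub_self]
  rcases mul_eq_zero.1 h1 with h2 | h2
  · exact pow_ne_zero _ hf.1 h2
  · apply hf.not_unit (f ^ k)
    rw [← pow_succ']
    exact sub_eq_zero.1 h2

/-- The powers `f^(p^n)` of a good element are distinct. -/
theorem Good.pow_inj {f : A p} (hf : Good f) {n m : ℕ} (h : f ^ (p ^ n) = f ^ (p ^ m)) :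
    n = m := by
  rcases lt_trichotomy n m with h1 | h1 | h1
  · exact absurd h (hf.pow_ne h1)
  · exact h1
  · exact absurd h.symm (hf.pow_ne h1)

theorem natCast_pow (c s : ℕ) : ((c : A p)) ^ (p ^ s) = c := by
  induction s with
  | zero => simp
  | succ s ih =>
    rw [pow_succ, pow_mul, ih]
    have h1 : ((c : ZMod p)) ^ p = c := ZMod.pow_card _
    have h2 : (((c ^ p : ℕ)) : ZMod p) = ((c : ℕ) : ZMod p) := by
      rw [Nat.cast_pow, h1]
    rw [CharP.natCast_eq_natCast (ZMod p) p] at h2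
    have h3 := (CharP.natCast_eq_natCast (A p) p).2 h2
    rw [Nat.cast_pow] at h3
    exact h3

theorem B_pow (hp : 13 ≤ p) (x : A p) (s : ℕ) : B x (x ^ (p ^ s)) := by
  intro a _
  have h1 : x ^ (p ^ s) + (a : A p) = (x + (a : A p)) ^ (p ^ s) := by
    rw [add_pow_char_pow, natCast_pow]
  have hodd : Odd (p ^ s) := by
    apply Odd.pow
    exact (Fact.out : p.Prime).odd_of_ne_two (by omega)
  obtain ⟨k, hk⟩ := hodd
  refine ⟨(x + (a : A p)) ^ (k + 1), ?_⟩
  rw [h1, hk, ← pow_succ', ← pow_add]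
  congr 1
  ring

/-- `x = f^(p^n)` for some `n` iff `B f x` and `f ∣ x`. -/
theorem num_iff (hp : 13 ≤ p) {f : A p} (hf : Good f) (x : A p) :
    (∃ n : ℕ, x = f ^ (p ^ n)) ↔ B f x ∧ ∃ y, x = f * y := by
  constructor
  · rintro ⟨n, rfl⟩
    refine ⟨B_pow hp f n, f ^ (p ^ n - 1), ?_⟩
    rw [← pow_succ']
    congr 1
    have := Nat.pos_of_ne_zero (pow_ne_zero n (Fact.out : p.Prime).ne_zero)
    omega
  · rintro ⟨hB, y, hy⟩
    obtain ⟨u, hu | hu⟩ := B_frob hp hf.nonconst hB
    · exact ⟨u, hu⟩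
    · rcases Nat.eq_zero_or_pos u with rfl | hu0
      · exact ⟨0, by simpa using hu.symm⟩
      · exfalso
        have h1 : 1 < p ^ u := Nat.one_lt_pow hu0.ne' (Fact.out : p.Prime).one_lt
        obtain ⟨k, hk⟩ : ∃ k, p ^ u = k + 2 := ⟨p ^ u - 2, by omega⟩
        rw [hy, mul_pow] at hu
        apply hf.not_unit (f ^ k * y ^ (p ^ u))
        have h2 : f * (f * (f ^ k * y ^ (p ^ u)) - 1) = 0 := by
          have h3 : f ^ (p ^ u) = f * f * f ^ k := by
            rw [hk]; ring
          rw [h3] at hu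
          linear_combination -hu
        rcases mul_eq_zero.1 h2 with h3 | h3
        · exact absurd h3 hf.1
        · exact sub_eq_zero.1 h3

/-- `y = x^(p^s)` iff `B(x + c f, y + c f^(p^s))` for `c = 0,1,2,3`. -/
theorem frob_iff (hp : 13 ≤ p) {f : A p} (hf : Good f) (x y : A p) (s : ℕ) :
    y = x ^ (p ^ s) ↔ ∀ c : ℕ, c < 4 → B (x + (c : A p) * f) (y + (c : A p) * f ^ (p ^ s)) := by
  constructor
  · rintro rfl c _
    have h1 : x ^ (p ^ s) + (c : A p) * f ^ (p ^ s) = (x + (c : A p) * f) ^ (p ^ s) := by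
      rw [add_pow_char_pow, mul_pow, natCast_pow]
    rw [h1]
    exact B_pow hp _ s
  · intro h
    exact Fr_frob hp hf.nonconst h

/-- Number existential quantifier. -/
theorem MD.exN (hp : 13 ≤ p) {S : A p → (α → ℕ) → (β → A p) → ℕ → Prop}
    (h : MD (fun f (v : Option α → ℕ) (w : β → A p) => S f (v ∘ some) w (v none))) :
    MD (fun f v w => ∃ n, S f v w n) := by
  obtain ⟨S', hED, hS'⟩ := h
  -- the reindexing
  let ρ : Option (Option α ⊕ β) → Option (α ⊕ Option β) := fun o =>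
    o.elim none (Sum.elim (fun i => i.elim (some (Sum.inr none)) (fun i => some (Sum.inl i)))
      (fun j => some (Sum.inr (some j))))
  have h1 : MD (fun f (v : α → ℕ) (w : Option β → A p) => (fun i => asg f v w (ρ i)) ∈ S') :=
    ⟨_, ED.subst hED (h := fun i (u : Option (α ⊕ Option β) → A p) => u (ρ i))
      (fun i => Term.proj _), fun f _ v w => Iff.rfl⟩
  have h2 : MD (fun f (v : α → ℕ) (w : Option β → A p) => B f (w none)) :=
    MD.b MF.par (MF.var none)
  have h3 : MD (fun f (v : α → ℕ) (w : Option β → A p) => ∃ y, w none = f * y) := by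
    apply MD.exA
    exact MD.eq (MF.var (some none)) (MF.mul MF.par (MF.var none))
  refine MD.ext (MD.exA (S := fun f v w x => (B f x ∧ ∃ y, x = f * y) ∧
    (fun i => asg f v (fun o : Option β => o.elim x w) (ρ i)) ∈ S') (MD.ext ((h2.and h3).and h1)
    (fun f _ v w => ?_))) (fun f hf v w => ?_)
  · have e : (fun o : Option β => o.elim (w none) (w ∘ some)) = w := by
      funext o
      cases o <;> rfl
    simp only [e]
  · have key : ∀ n : ℕ, (fun i => asg f v (fun o : Option β => o.elim (f ^ (p ^ n)) w) (ρ i)) =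
        asg f (fun o : Option α => o.elim n v) w := by
      intro n
      funext i
      rcases i with _ | (_ | i) | j <;> rfl
    constructor
    · rintro ⟨x, hx, hS⟩
      obtain ⟨n, rfl⟩ := (num_iff hp hf x).2 hx
      refine ⟨n, ?_⟩
      rw [key n, ← hS' f hf] at hS
      exact hS
    · rintro ⟨n, hn⟩
      refine ⟨f ^ (p ^ n), (num_iff hp hf _).1 ⟨n, rfl⟩, ?_⟩
      rw [key n, ← hS' f hf]
      exact hn

/-- Frobenius powers of definable functions. -/
theorem MF.frob (hp : 13 ≤ p) {g : A p → (α → ℕ) → (β → A p) → A p} (hg : MF g) (i : α) :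
    MF (fun f v w => g f v w ^ (p ^ v i)) := by
  have hg' : MF (fun f (v : α → ℕ) (w : Option β → A p) => g f v (w ∘ some)) :=
    MD.reindex (α := α) (α' := α) (β := Option β) (β' := Option (Option β)) id
      (Option.map some) hg
  have h1 : MD (fun f (v : α → ℕ) (w : Option β → A p) => ∀ c : Fin 4,
      B (g f v (w ∘ some) + ((c : ℕ) : A p) * f)
        (w none + ((c : ℕ) : A p) * f ^ (p ^ v i))) := by
    apply MD.ballFin
    intro c
    exact MD.b (MF.add hg' (MF.mul (MF.nat _) MF.par))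
      (MF.add (MF.var none) (MF.mul (MF.nat _) (MF.num i)))
  refine MD.ext h1 (fun f hf v w => ?_)
  rw [frob_iff hp hf]
  constructor
  · intro h c hc
    exact h ⟨c, hc⟩
  · intro h c
    exact h c c.2

/-- Addition of numbers. -/
theorem MD.addN (hp : 13 ≤ p) (i j k : α) :
    MD (fun (_ : A p) (v : α → ℕ) (_ : β → A p) => v i + v j = v k) := by
  refine MD.ext (MD.eq (MF.frob hp (MF.num (β := β) i) j) (MF.num k)) (fun f hf v w => ?_)
  rw [← pow_mul, ← pow_add]
  exact ⟨fun h => hf.pow_inj h, fun h => by rw [h]⟩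

/-- The number one. -/
theorem MD.oneN (i : α) : MD (fun (_ : A p) (v : α → ℕ) (_ : β → A p) => v i = 1) := by
  refine MD.ext (MD.eq (MF.num (β := β) i) (MF.pow MF.par p)) (fun f hf v w => ?_)
  constructor
  · intro h
    apply hf.pow_inj
    rw [h, pow_one]
  · intro h
    rw [h, pow_one]

end LR54
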