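import Mathlib

/-!
# LR54.Mult: a class of relations over `ℕ` which is closed under conjunction, existential
quantification and reindexing, and contains addition, `1` and the relation
`R = {(n,m) : n, m ≥ 1, n = p^u m or m = p^u n}`, contains multiplication.
-/

namespace LR54

/-- Existentially closed class of relations containing `+`, `1`, `R`. -/
structure ExClass (p : ℕ) (C : ∀ {α : Type}, Set (α → ℕ) → Prop) : Prop where
  ext : ∀ {α : Type} {S T : Set (α → ℕ)}, C S → (∀ v, v ∈ S ↔ v ∈ T) → C T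
  univ : ∀ {α : Type}, C (Set.univ : Set (α → ℕ))
  inter : ∀ {α : Type} {S T : Set (α → ℕ)}, C S → C T → C {v | v ∈ S ∧ v ∈ T}
  ex : ∀ {α : Type} {P : (α → ℕ) → ℕ → Prop},
    C {w : Option α → ℕ | P (w ∘ some) (w none)} → C {v : α → ℕ | ∃ x, P v x}
  reindex : ∀ {α β : Type} (g : α → β) {S : Set (α → ℕ)}, C S → C {v : β → ℕ | v ∘ g ∈ S}
  add : C {v : Fin 3 → ℕ | v 0 + v 1 = v 2}
  one : C {v : Fin 1 → ℕ | v 0 = 1}
  rr : C {v : Fin 2 → ℕ | 1 ≤ v 0 ∧ 1 ≤ v 1 ∧ ∃ u : ℕ, v 0 = p ^ u * v 1 ∨ v 1 = p ^ u * v 0}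

/-- Pure number theory: `c = a * p^k` from three instances of `R`. -/
theorem prod_pow_of_rel {p : ℕ} (hp : p.Prime) (h2 : p ≠ 2) {a c k i j l : ℕ} (ha : 1 ≤ a)
    (hj : c = p ^ j * a) (hi : c + p ^ k = p ^ i * (a + 1))
    (hl : c + 2 * p ^ k = p ^ l * (a + 2)) : c = a * p ^ k := by
  have hp2 : 2 ≤ p := hp.two_le
  have hpos : ∀ m : ℕ, 0 < p ^ m := fun m => pow_pos hp.pos m
  have hstep : ∀ m m' : ℕ, m < m' → 2 * p ^ m ≤ p ^ m' := by
    intro m m' h
    calc 2 * p ^ m ≤ p * p ^ m := Nat.mul_le_mul_right _ hp2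
      _ = p ^ (m + 1) := by ring
      _ ≤ p ^ m' := Nat.pow_le_pow_right hp.pos h
  rcases lt_trichotomy j i with h | h | h
  · exfalso
    -- `k > i`
    have hji := hstep j i h
    have hki : i < k := by
      by_contra hle
      have h1 : p ^ k ≤ p ^ i := Nat.pow_le_pow_right hp.pos (by omega)
      have h3 : p ^ j * a < p ^ i * a := by
        apply Nat.mul_lt_mul_of_pos_right _ ha
        have := hpos j
        omega
      rw [hj] at hi
      have : p ^ i * (a + 1) = p ^ i * a + p ^ i := by ring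
      omega
    -- `p ∣ a`
    have hpa : p ∣ a := by
      obtain ⟨u, rfl⟩ : ∃ u, i = j + u + 1 := ⟨i - j - 1, by omega⟩
      obtain ⟨w, rfl⟩ : ∃ w, k = j + w + 1 := ⟨k - j - 1, by omega⟩
      have h1 : p ^ j * (a + p * p ^ w) = p ^ j * (p * (p ^ u * (a + 1))) := by
        rw [hj] at hi
        calc p ^ j * (a + p * p ^ w) = p ^ j * a + p ^ (j + w + 1) := by ring
          _ = p ^ (j + u + 1) * (a + 1) := hi
          _ = p ^ j * (p * (p ^ u * (a + 1))) := by ring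
      have h3 := Nat.eq_of_mul_eq_mul_left (hpos j) h1
      have h4 : p ∣ a + p * p ^ w := h3 ▸ Dvd.intro _ rfl
      exact (Nat.dvd_add_left (Dvd.intro _ rfl)).1 h4
    rcases lt_trichotomy l i with h' | h' | h'
    · have h1 := hstep l i h'
      have h3 : 2 * p ^ l * (a + 2) ≤ p ^ i * (a + 2) := Nat.mul_le_mul_right _ h1
      have h4 : p ^ i * (a + 2) ≤ 2 * (p ^ i * (a + 1)) := by nlinarith [hpos i]
      have h5 : 2 * (p ^ l * (a + 2)) ≤ 2 * (p ^ i * (a + 1)) := by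
        calc 2 * (p ^ l * (a + 2)) = 2 * p ^ l * (a + 2) := by ring
          _ ≤ _ := h3.trans h4
      have h6 := hpos k
      omega
    · rw [h'] at hl
      have h1 : p ^ k = p ^ i := by
        have : p ^ i * (a + 2) = p ^ i * (a + 1) + p ^ i := by ring
        omega
      have h3 : k = i := Nat.pow_right_injective hp2 h1
      omega
    · have hpa1 : p ∣ a + 1 := by
        obtain ⟨u, rfl⟩ : ∃ u, l = i + u + 1 := ⟨l - i - 1, by omega⟩
        obtain ⟨w, rfl⟩ : ∃ w, k = i + w + 1 := ⟨k - i - 1, by omega⟩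
        have h1 : p ^ i * (a + 1 + p * p ^ w) = p ^ i * (p * (p ^ u * (a + 2))) := by
          calc p ^ i * (a + 1 + p * p ^ w) = p ^ i * (a + 1) + p ^ (i + w + 1) := by ring
            _ = c + p ^ (i + w + 1) + p ^ (i + w + 1) := by rw [hi]
            _ = c + 2 * p ^ (i + w + 1) := by ring
            _ = p ^ (i + u + 1) * (a + 2) := hl
            _ = p ^ i * (p * (p ^ u * (a + 2))) := by ring
        have h3 := Nat.eq_of_mul_eq_mul_left (hpos i) h1
        have h4 : p ∣ a + 1 + p * p ^ w := h3 ▸ Dvd.intro _ rfl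
        exact (Nat.dvd_add_left (Dvd.intro _ rfl)).1 h4
      have h1 : p ∣ 1 := (Nat.dvd_add_right hpa).1 hpa1
      exact hp.one_lt.ne' (Nat.dvd_one.1 h1)
  · rw [h] at hj
    have h1 : p ^ k = p ^ i := by
      have : p ^ i * (a + 1) = p ^ i * a + p ^ i := by ring
      omega
    rw [h1, hj, mul_comm]
  · exfalso
    have h1 := hstep i j h
    rw [hj] at hi
    have h3 : 2 * p ^ i * a ≤ p ^ j * a := Nat.mul_le_mul_right _ h1
    have h4 : p ^ i * 1 ≤ p ^ i * a := Nat.mul_le_mul_left _ ha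
    have h5 : p ^ i * (a + 1) = p ^ i * a + p ^ i := by ring
    have h6 : 2 * p ^ i * a = p ^ i * a + p ^ i * a := by ring
    have h7 := hpos k
    omega

/-- A function whose graph is in the class. -/
def CF (C : ∀ {α : Type}, Set (α → ℕ) → Prop) {α : Type} (g : (α → ℕ) → ℕ) : Prop :=
  C {w : Option α → ℕ | g (w ∘ some) = w none}

namespace ExClass

variable {p : ℕ} {C : ∀ {α : Type}, Set (α → ℕ) → Prop}

theorem exFin (h : ExClass p C) {α : Type} {k : ℕ} {P : (α → ℕ) → (Fin k → ℕ) → Prop}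
    (hP : C {w : α ⊕ Fin k → ℕ | P (w ∘ Sum.inl) (w ∘ Sum.inr)}) :
    C {v : α → ℕ | ∃ t : Fin k → ℕ, P v t} := by
  induction k generalizing α with
  | zero =>
    refine h.ext (h.reindex (Sum.elim id Fin.elim0 : α ⊕ Fin 0 → α) hP) fun v => ?_
    constructor
    · intro hv
      exact ⟨_, hv⟩
    · rintro ⟨t, ht⟩
      have e : t = (v ∘ (Sum.elim id Fin.elim0 : α ⊕ Fin 0 → α)) ∘ Sum.inr :=
        Subsingleton.elim _ _
      rw [e] at ht
      exact ht
  | succ k ih =>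
    have h1 : C {w : Option α ⊕ Fin k → ℕ |
        (fun (w' : Option α → ℕ) (t : Fin k → ℕ) =>
          P (w' ∘ some) (Fin.cons (w' none) t)) (w ∘ Sum.inl) (w ∘ Sum.inr)} := by
      let g : α ⊕ Fin (k + 1) → Option α ⊕ Fin k :=
        Sum.elim (fun a => Sum.inl (some a))
          (fun i => Fin.cases (Sum.inl none) (fun j => Sum.inr j) i)
      refine h.ext (h.reindex g hP) fun w => ?_
      have e : (w ∘ g) ∘ Sum.inr =
          (Fin.cons ((w ∘ Sum.inl) none) (w ∘ Sum.inr) : Fin (k + 1) → ℕ) := by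
        funext i
        refine Fin.cases ?_ (fun j => ?_) i
        · rfl
        · rfl
      change P _ _ ↔ P _ _
      rw [e]
      rfl
    have h2 := ih (P := fun (w' : Option α → ℕ) (t : Fin k → ℕ) =>
      P (w' ∘ some) (Fin.cons (w' none) t)) h1
    have h3 : C {v : α → ℕ | ∃ x : ℕ, (fun (v : α → ℕ) (x : ℕ) =>
        ∃ t : Fin k → ℕ, P v (Fin.cons x t)) v x} :=
      h.ex (P := fun (v : α → ℕ) (x : ℕ) => ∃ t : Fin k → ℕ, P v (Fin.cons x t)) h2
    refine h.ext h3 fun v => ?_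
    constructor
    · rintro ⟨x, t, ht⟩
      exact ⟨_, ht⟩
    · rintro ⟨t, ht⟩
      refine ⟨t 0, Fin.tail t, ?_⟩
      rw [Fin.cons_self_tail]
      exact ht

theorem ballFin (h : ExClass p C) {α : Type} {k : ℕ} {S : Fin k → Set (α → ℕ)}
    (hS : ∀ i, C (S i)) : C {v : α → ℕ | ∀ i, v ∈ S i} := by
  induction k with
  | zero =>
    refine h.ext h.univ fun v => ?_
    constructor
    · intro _ i
      exact i.elim0
    · intro _
      trivial
  | succ k ih =>
    refine h.ext (h.inter (hS 0) (ih fun i => hS i.succ)) fun v => ?_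
    constructor
    · rintro ⟨h0, h1⟩ i
      exact Fin.cases h0 h1 i
    · intro hv
      exact ⟨hv 0, fun i => hv i.succ⟩

theorem zero' (h : ExClass p C) : C {v : Fin 1 → ℕ | v 0 = 0} := by
  refine h.ext (h.reindex (fun _ : Fin 3 => (0 : Fin 1)) h.add) fun v => ?_
  change v 0 + v 0 = v 0 ↔ v 0 = 0
  omega

theorem eqRel (h : ExClass p C) : C {v : Fin 2 → ℕ | v 0 = v 1} := by
  have h1 : C {w : Option (Fin 2) → ℕ |
      (fun (v : Fin 2 → ℕ) (x : ℕ) => x = 0 ∧ v 0 + x = v 1) (w ∘ some) (w none)} :=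
    h.inter (h.reindex (fun _ : Fin 1 => (none : Option (Fin 2))) h.zero')
      (h.reindex (![some 0, none, some 1] : Fin 3 → Option (Fin 2)) h.add)
  refine h.ext (h.ex (P := fun (v : Fin 2 → ℕ) (x : ℕ) => x = 0 ∧ v 0 + x = v 1) h1) fun v => ?_
  constructor
  · rintro ⟨x, hx, hv⟩
    change v 0 = v 1
    have hx' : x = 0 := hx
    have hv' : v 0 + x = v 1 := hv
    omega
  · intro hv
    have hv' : v 0 = v 1 := hv
    exact ⟨0, rfl, by omega⟩

theorem fproj (h : ExClass p C) {α : Type} (i : α) : CF C (fun v : α → ℕ => v i) :=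
  h.reindex (![some i, none] : Fin 2 → Option α) h.eqRel

theorem freindex (h : ExClass p C) {α β : Type} (e : α → β) {g : (α → ℕ) → ℕ} (hg : CF C g) :
    CF C (fun v : β → ℕ => g (v ∘ e)) :=
  h.reindex (Option.map e) hg

theorem rel (h : ExClass p C) {α : Type} {k : ℕ} {g : Fin k → (α → ℕ) → ℕ}
    (hg : ∀ i, CF C (g i)) {T : Set (Fin k → ℕ)} (hT : C T) :
    C {v : α → ℕ | (fun i => g i v) ∈ T} := by
  have h1 : C {w : α ⊕ Fin k → ℕ | (fun (v : α → ℕ) (t : Fin k → ℕ) =>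
      (∀ i, g i v = t i) ∧ t ∈ T) (w ∘ Sum.inl) (w ∘ Sum.inr)} := by
    refine h.inter (h.ballFin (S := fun i => {w : α ⊕ Fin k → ℕ |
      g i (w ∘ Sum.inl) = w (Sum.inr i)}) fun i => ?_) (h.reindex Sum.inr hT)
    exact h.reindex (fun o : Option α => o.elim (Sum.inr i) Sum.inl) (hg i)
  refine h.ext (h.exFin (P := fun (v : α → ℕ) (t : Fin k → ℕ) =>
    (∀ i, g i v = t i) ∧ t ∈ T) h1) fun v => ?_
  constructor
  · rintro ⟨t, ht, hT'⟩
    have e : (fun i => g i v) = t := funext ht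
    change (fun i => g i v) ∈ T
    rw [e]
    exact hT'
  · intro hv
    exact ⟨fun i => g i v, fun _ => rfl, hv⟩

theorem feq (h : ExClass p C) {α : Type} {g g' : (α → ℕ) → ℕ} (hg : CF C g) (hg' : CF C g') :
    C {v : α → ℕ | g v = g' v} := by
  refine h.rel (g := ![g, g']) (fun i => ?_) h.eqRel
  fin_cases i
  · exact hg
  · exact hg'

theorem fadd (h : ExClass p C) {α : Type} {g g' : (α → ℕ) → ℕ} (hg : CF C g) (hg' : CF C g') :
    CF C (fun v => g v + g' v) := by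
  unfold CF
  refine h.rel (α := Option α) (g := ![fun w => g (w ∘ some), fun w => g' (w ∘ some),
    fun w => w none]) (fun i => ?_) h.add
  fin_cases i
  · exact h.freindex some hg
  · exact h.freindex some hg'
  · exact h.fproj none

theorem fconst (h : ExClass p C) {α : Type} (k : ℕ) : CF C (fun _ : α → ℕ => k) := by
  induction k with
  | zero =>
    refine h.ext (h.reindex (fun _ : Fin 1 => (none : Option α)) h.zero') fun w => ?_
    change w none = 0 ↔ 0 = w none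
    exact eq_comm
  | succ k ih =>
    have h1 : CF C (fun _ : α → ℕ => 1) := by
      refine h.ext (h.reindex (fun _ : Fin 1 => (none : Option α)) h.one) fun w => ?_
      change w none = 1 ↔ 1 = w none
      exact eq_comm
    exact h.fadd ih h1

theorem fle (h : ExClass p C) {α : Type} {g g' : (α → ℕ) → ℕ} (hg : CF C g) (hg' : CF C g') :
    C {v : α → ℕ | g v ≤ g' v} := by
  have h1 : C {w : Option α → ℕ | (fun (v : α → ℕ) (x : ℕ) => g v + x = g' v)
      (w ∘ some) (w none)} :=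
    h.feq (h.fadd (h.freindex some hg) (h.fproj none)) (h.freindex some hg')
  refine h.ext (h.ex (P := fun (v : α → ℕ) (x : ℕ) => g v + x = g' v) h1) fun v => ?_
  constructor
  · rintro ⟨x, hx⟩
    exact Nat.le.intro hx
  · intro hv
    exact Nat.le.dest hv

theorem flt (h : ExClass p C) {α : Type} {g g' : (α → ℕ) → ℕ} (hg : CF C g) (hg' : CF C g') :
    C {v : α → ℕ | g v < g' v} :=
  h.fle (h.fadd hg (h.fconst 1)) hg'

theorem frr (h : ExClass p C) {α : Type} {g g' : (α → ℕ) → ℕ} (hg : CF C g) (hg' : CF C g') :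
    C {v : α → ℕ | 1 ≤ g v ∧ 1 ≤ g' v ∧ ∃ u : ℕ, g v = p ^ u * g' v ∨ g' v = p ^ u * g v} := by
  refine h.rel (g := ![g, g']) (fun i => ?_) h.rr
  fin_cases i
  · exact hg
  · exact hg'

/-- powers of `p` -/
theorem fpw (h : ExClass p C) (hp : p.Prime) {α : Type} {g : (α → ℕ) → ℕ} (hg : CF C g) :
    C {v : α → ℕ | ∃ k : ℕ, g v = p ^ k} := by
  refine h.ext (h.frr (h.fconst 1) hg) fun v => ?_
  constructor
  · rintro ⟨_, h1, u, hu | hu⟩
    · refine ⟨0, ?_⟩
      have h2 : g v ∣ 1 := ⟨p ^ u, by rw [mul_comm]; exact hu⟩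
      rw [pow_zero]
      exact Nat.dvd_one.1 h2
    · exact ⟨u, by rw [hu, mul_one]⟩
  · rintro ⟨k, hk⟩
    have h1 : 1 ≤ g v := by
      rw [hk]
      exact pow_pos hp.pos k
    exact ⟨le_rfl, h1, k, Or.inr (by rw [mul_one]; exact hk)⟩

/-- `c = a * y` for a power `y` of `p`. -/
theorem fmulpow (h : ExClass p C) (hp : p.Prime) (h2 : p ≠ 2) {α : Type}
    {a y c : (α → ℕ) → ℕ} (ha : CF C a) (hy : CF C y) (hc : CF C c) :
    C {v : α → ℕ | (∃ k : ℕ, y v = p ^ k) ∧ a v * y v = c v} := by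
  have ha1 := h.fadd ha (h.fconst 1)
  have ha2 := h.fadd ha (h.fconst 2)
  have ha3 := h.fadd ha (h.fconst 3)
  have hc1 := h.fadd hc hy
  have hc2 := h.fadd hc1 hy
  have hc3 := h.fadd hc2 hy
  have key := h.inter (h.inter (h.fpw hp hy) (h.fle ha1 hc1))
    (h.inter (h.frr ha1 hc1) (h.inter (h.frr ha2 hc2) (h.frr ha3 hc3)))
  refine h.ext key fun v => ?_
  constructor
  · rintro ⟨⟨⟨k, hk⟩, hle⟩, ⟨_, _, u1, hu1⟩, ⟨_, _, u2, hu2⟩, ⟨_, _, u3, hu3⟩⟩
    have hle' : a v + 1 ≤ c v + y v := hle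
    have hk' : y v = p ^ k := hk
    have hy1 : 1 ≤ y v := by
      rw [hk']
      exact pow_pos hp.pos k
    have hup : ∀ {x z u : ℕ}, 1 ≤ z → x ≤ z → (x = p ^ u * z ∨ z = p ^ u * x) →
        ∃ j, z = p ^ j * x := by
      intro x z u hz hxz hor
      rcases hor with hx | hx
      · refine ⟨0, ?_⟩
        have : 1 * z ≤ p ^ u * z := Nat.mul_le_mul_right _ (pow_pos hp.pos u)
        rw [pow_zero, one_mul]
        omega
      · exact ⟨u, hx⟩
    obtain ⟨j, hj⟩ := hup (x := a v + 1) (z := c v + y v) (by omega) hle' hu1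
    obtain ⟨i, hi⟩ := hup (x := a v + 2) (z := c v + y v + y v) (by omega) (by omega) hu2
    obtain ⟨l, hl⟩ := hup (x := a v + 3) (z := c v + y v + y v + y v) (by omega) (by omega) hu3
    have := prod_pow_of_rel (p := p) (a := a v + 1) (c := c v + y v) (k := k) (i := i)
      (j := j) (l := l) hp h2 (by omega) hj (by rw [← hk']; exact hi)
      (by rw [← hk']; linarith [hl])
    refine ⟨⟨k, hk⟩, ?_⟩
    rw [← hk'] at this
    have e : (a v + 1) * y v = a v * y v + y v := by ring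
    omega
  · rintro ⟨⟨k, hk⟩, hm⟩
    have hk' : y v = p ^ k := hk
    have hy1 : 1 ≤ y v := by
      rw [hk']
      exact pow_pos hp.pos k
    have hm' : a v * y v = c v := hm
    have e1 : c v + y v = p ^ k * (a v + 1) := by rw [← hk', ← hm']; ring
    have e2 : c v + y v + y v = p ^ k * (a v + 2) := by rw [← hk', ← hm']; ring
    have e3 : c v + y v + y v + y v = p ^ k * (a v + 3) := by rw [← hk', ← hm']; ring
    have hle : a v + 1 ≤ c v + y v := by
      rw [e1]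
      calc a v + 1 = 1 * (a v + 1) := by ring
        _ ≤ p ^ k * (a v + 1) := Nat.mul_le_mul_right _ (pow_pos hp.pos k)
    exact ⟨⟨⟨k, hk⟩, hle⟩, ⟨Nat.le_add_left _ _, le_trans hy1 (Nat.le_add_left _ _), k, Or.inr e1⟩,
      ⟨le_trans one_le_two (Nat.le_add_left _ _), le_trans hy1 (Nat.le_add_left _ _), k, Or.inr e2⟩,
      ⟨le_trans (by norm_num) (Nat.le_add_left 3 _), le_trans hy1 (Nat.le_add_left _ _), k,
        Or.inr e3⟩⟩

end ExClass

/-- Multiplication is in the class. -/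
theorem ExClass.mul {p : ℕ} (hp : p.Prime) (h2 : p ≠ 2) {C : ∀ {α : Type}, Set (α → ℕ) → Prop}
    (h : ExClass p C) : C {v : Fin 3 → ℕ | v 0 * v 1 = v 2} := by
  -- variables: 0 = y, 1 = y', 2 = y1, 3 = y2, 4 = z, 5 = q, 6 = u, 7 = q',
  -- 8 = z y, 9 = q y, 10 = u y, 11 = a y', 12 = q' y, 13 = y1 y2
  let P : (Fin 3 → ℕ) → (Fin 14 → ℕ) → Prop := fun v t =>
    ((∃ k : ℕ, t 0 = p ^ k) ∧ t 4 * t 0 = t 8) ∧
    ((∃ k : ℕ, t 0 = p ^ k) ∧ t 5 * t 0 = t 9) ∧
    ((∃ k : ℕ, t 0 = p ^ k) ∧ t 6 * t 0 = t 10) ∧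
    ((∃ k : ℕ, t 1 = p ^ k) ∧ v 0 * t 1 = t 11) ∧
    ((∃ k : ℕ, t 0 = p ^ k) ∧ t 7 * t 0 = t 12) ∧
    ((∃ k : ℕ, t 3 = p ^ k) ∧ t 2 * t 3 = t 13) ∧
    (t 8 + 1 = t 1 + t 4) ∧ (t 4 + t 5 = v 1 + t 9) ∧ (t 10 + v 0 = t 11 + t 6) ∧
    (t 6 + t 7 = v 2 + t 12) ∧ (v 0 < t 2) ∧ (v 1 < t 3) ∧ (t 13 + 1 < t 0) ∧ (v 2 + 1 < t 0)
  have hT : ∀ i : Fin 14, CF C (fun w : Fin 3 ⊕ Fin 14 → ℕ => w (Sum.inr i)) :=
    fun i => h.fproj _
  have hV : ∀ i : Fin 3, CF C (fun w : Fin 3 ⊕ Fin 14 → ℕ => w (Sum.inl i)) :=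
    fun i => h.fproj _
  have h1 : C {w : Fin 3 ⊕ Fin 14 → ℕ | P (w ∘ Sum.inl) (w ∘ Sum.inr)} :=
    h.inter (h.fmulpow hp h2 (hT 4) (hT 0) (hT 8)) <|
    h.inter (h.fmulpow hp h2 (hT 5) (hT 0) (hT 9)) <|
    h.inter (h.fmulpow hp h2 (hT 6) (hT 0) (hT 10)) <|
    h.inter (h.fmulpow hp h2 (hV 0) (hT 1) (hT 11)) <|
    h.inter (h.fmulpow hp h2 (hT 7) (hT 0) (hT 12)) <|
    h.inter (h.fmulpow hp h2 (hT 2) (hT 3) (hT 13)) <|
    h.inter (h.feq (h.fadd (hT 8) (h.fconst 1)) (h.fadd (hT 1) (hT 4))) <|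
    h.inter (h.feq (h.fadd (hT 4) (hT 5)) (h.fadd (hV 1) (hT 9))) <|
    h.inter (h.feq (h.fadd (hT 10) (hV 0)) (h.fadd (hT 11) (hT 6))) <|
    h.inter (h.feq (h.fadd (hT 6) (hT 7)) (h.fadd (hV 2) (hT 12))) <|
    h.inter (h.flt (hV 0) (hT 2)) <|
    h.inter (h.flt (hV 1) (hT 3)) <|
    h.inter (h.flt (h.fadd (hT 13) (h.fconst 1)) (hT 0)) <|
    h.flt (h.fadd (hV 2) (h.fconst 1)) (hT 0)
  refine h.ext (h.exFin (P := P) h1) fun v => ?_
  constructor
  · rintro ⟨t, ⟨_, h4⟩, ⟨_, h5⟩, ⟨_, h6⟩, ⟨_, ha⟩, ⟨_, h7⟩, ⟨_, h23⟩, e1, e2, e3, e4, l1, l2, l3, l4⟩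
    change v 0 * v 1 = v 2
    have h4' : (t 4 : ℤ) * t 0 = t 8 := by exact_mod_cast h4
    have h5' : (t 5 : ℤ) * t 0 = t 9 := by exact_mod_cast h5
    have h6' : (t 6 : ℤ) * t 0 = t 10 := by exact_mod_cast h6
    have ha' : (v 0 : ℤ) * t 1 = t 11 := by exact_mod_cast ha
    have h7' : (t 7 : ℤ) * t 0 = t 12 := by exact_mod_cast h7
    have h23' : (t 2 : ℤ) * t 3 = t 13 := by exact_mod_cast h23
    have e1' : (t 8 : ℤ) + 1 = t 1 + t 4 := by exact_mod_cast e1
    have e2' : (t 4 : ℤ) + t 5 = v 1 + t 9 := by exact_mod_cast e2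
    have e3' : (t 10 : ℤ) + v 0 = t 11 + t 6 := by exact_mod_cast e3
    have e4' : (t 6 : ℤ) + t 7 = v 2 + t 12 := by exact_mod_cast e4
    have l1' : (v 0 : ℤ) < t 2 := by exact_mod_cast l1
    have l2' : (v 1 : ℤ) < t 3 := by exact_mod_cast l2
    have l3' : (t 13 : ℤ) + 1 < t 0 := by exact_mod_cast l3
    have l4' : (v 2 : ℤ) + 1 < t 0 := by exact_mod_cast l4
    have hv0 : (0 : ℤ) ≤ v 0 := Int.natCast_nonneg _
    have hv1 : (0 : ℤ) ≤ v 1 := Int.natCast_nonneg _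
    have hv2 : (0 : ℤ) ≤ v 2 := Int.natCast_nonneg _
    have ht13 : (0 : ℤ) ≤ t 13 := Int.natCast_nonneg _
    have hy : (0 : ℤ) < t 0 - 1 := by omega
    -- `u = a z`
    have hu : (t 6 : ℤ) = v 0 * t 4 := by
      have h8 : ((t 0 : ℤ) - 1) * t 6 = (t 0 - 1) * (v 0 * t 4) := by
        have h9 : ((t 0 : ℤ) - 1) * t 4 = t 1 - 1 := by linarith
        have h10 : ((t 0 : ℤ) - 1) * t 6 = v 0 * (t 1 - 1) := by
          linarith
        rw [h10, ← h9]
        ring
      exact mul_left_cancel₀ hy.ne' h8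
    have hdiv : (v 0 : ℤ) * v 1 - v 2 = (t 0 - 1) * (t 7 - v 0 * t 5) := by
      have h8 : (v 1 : ℤ) = t 4 + t 5 - t 5 * t 0 := by linarith
      have h9 : (v 2 : ℤ) = t 6 + t 7 - t 7 * t 0 := by linarith
      rw [h8, h9, hu]
      ring
    have hlt : (v 0 : ℤ) * v 1 ≤ t 13 := by
      rw [← h23']
      have := mul_le_mul l1'.le l2'.le hv1 (le_trans hv0 l1'.le)
      exact this
    have hab0 : (0 : ℤ) ≤ v 0 * v 1 := mul_nonneg hv0 hv1
    have hz : (t 7 : ℤ) - v 0 * t 5 = 0 := by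
      by_contra hne
      have h8 : (1 : ℤ) ≤ |(t 7 : ℤ) - v 0 * t 5| := Int.one_le_abs hne
      have h9 : |(v 0 : ℤ) * v 1 - v 2| = (t 0 - 1) * |(t 7 : ℤ) - v 0 * t 5| := by
        rw [hdiv, abs_mul, abs_of_pos hy]
      have h10 : |(v 0 : ℤ) * v 1 - v 2| < t 0 - 1 := by
        rw [abs_lt]
        constructor
        · linarith
        · linarith
      have h11 : ((t 0 : ℤ) - 1) * 1 ≤ (t 0 - 1) * |(t 7 : ℤ) - v 0 * t 5| :=
        mul_le_mul_of_nonneg_left h8 hy.le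
      rw [← h9] at h11
      linarith
    rw [hz, mul_zero] at hdiv
    have : (v 0 : ℤ) * v 1 = v 2 := by linarith
    exact_mod_cast this
  · intro hv
    have hv' : v 0 * v 1 = v 2 := hv
    have hp1 : 1 < p := hp.one_lt
    set A := v 0 with hA
    set B := v 1 with hB
    have hlt : ∀ m : ℕ, m < p ^ m := fun m => Nat.lt_pow_self hp1
    -- the powers
    set y1 := p ^ A with hy1
    set y2 := p ^ B with hy2
    set Y := p ^ (y1 * y2 + 1) with hY
    have hYlt : y1 * y2 + 1 < Y := hlt _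
    -- geometric sums
    set z := ∑ i ∈ Finset.range B, Y ^ i with hz
    have hgs : ∀ m : ℕ, (∑ i ∈ Finset.range m, Y ^ i) * Y + 1 =
        Y ^ m + ∑ i ∈ Finset.range m, Y ^ i := by
      intro m
      induction m with
      | zero => simp
      | succ m ih =>
        rw [Finset.sum_range_succ, add_mul, pow_succ]
        linarith
    set q := ∑ j ∈ Finset.range B, ∑ i ∈ Finset.range j, Y ^ i with hq
    have hq1 : ∀ m : ℕ, (∑ i ∈ Finset.range m, Y ^ i) +
        ∑ j ∈ Finset.range m, ∑ i ∈ Finset.range j, Y ^ i =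
        m + (∑ j ∈ Finset.range m, ∑ i ∈ Finset.range j, Y ^ i) * Y := by
      intro m
      induction m with
      | zero => simp
      | succ m ih =>
        have h3 := hgs m
        rw [Finset.sum_range_succ, Finset.sum_range_succ (fun j => ∑ i ∈ Finset.range j, Y ^ i),
          add_mul]
        push_cast
        linarith
    have hcle : v 2 ≤ y1 * y2 := by
      rw [← hv']
      exact Nat.mul_le_mul (hlt _).le (hlt _).le
    refine ⟨![Y, Y ^ B, y1, y2, z, q, A * z, A * q, z * Y, q * Y, A * z * Y, A * Y ^ B,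
      A * q * Y, y1 * y2], ⟨⟨_, rfl⟩, rfl⟩, ⟨⟨_, rfl⟩, rfl⟩, ⟨⟨_, rfl⟩, rfl⟩,
      ⟨⟨(y1 * y2 + 1) * B, ?_⟩, rfl⟩, ⟨⟨_, rfl⟩, rfl⟩, ⟨⟨B, rfl⟩, rfl⟩, ?_, ?_, ?_, ?_, ?_, ?_,
      ?_, ?_⟩
    · change Y ^ B = p ^ ((y1 * y2 + 1) * B)
      rw [hY, ← pow_mul]
    · change z * Y + 1 = Y ^ B + z
      exact hgs B
    · change z + q = B + q * Y
      exact hq1 B
    · change A * z * Y + A = A * Y ^ B + A * z
      have h3 : A * (z * Y + 1) = A * (Y ^ B + z) := congrArg (fun x => A * x) (hgs B)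
      rw [mul_add, mul_add, mul_one, ← mul_assoc] at h3
      exact h3
    · change A * z + A * q = v 2 + A * q * Y
      have h3 : A * (z + q) = A * (B + q * Y) := congrArg (fun x => A * x) (hq1 B)
      rw [mul_add, mul_add, ← mul_assoc, hv'] at h3
      exact h3
    · exact hlt A
    · exact hlt B
    · exact hYlt
    · change v 2 + 1 < Y
      omega

end LR54
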