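import Pool.Agent.LR54.FF

/-!
# LR54.PalIff: palindromic squares (note 500, section 4), from `B_frob`.
`⇐`: `m = p^u n`: `Pa n m a = Q^(p^u+1)`, `Q = X^(2n) + a X^n + 1`, `S = Q^((p^u+1)/2)`.
`⇒`: put `X = (1+t)^2`, `x_n = X^n + X^(-n)`, an element of `A p`; then
`(x_n + a)(x_m + a) = (S(X) / (1+t)^(n+m))^2`, so `B x_n x_m`, and `B_frob` gives
`x_m = x_n^(p^u) = x_(n p^u)` (or the reverse), so `m = n p^u` (compare degrees).
-/

namespace LR54

open Polynomial

variable {p : ℕ} [Fact p.Prime]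

/-! ### The direction from powers to palindromic squares -/

/-- The trinomial. -/
noncomputable def QQ (n : ℕ) (a : ZMod p) : Polynomial (ZMod p) := X ^ (2 * n) + C a * X ^ n + 1

theorem QQ_natDegree {n : ℕ} (hn : 1 ≤ n) (a : ZMod p) : (QQ n a).natDegree = 2 * n := by
  unfold QQ
  have h : (C a * X ^ n + 1 : Polynomial (ZMod p)).natDegree < 2 * n := by
    refine lt_of_le_of_lt (natDegree_add_le _ _) ?_
    rw [natDegree_one, max_lt_iff]
    exact ⟨lt_of_le_of_lt (natDegree_C_mul_X_pow_le a n) (by omega), by omega⟩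
  rw [add_assoc, natDegree_add_eq_left_of_natDegree_lt]
  · rw [natDegree_X_pow]
  · rw [natDegree_X_pow]; exact h

theorem QQ_coeff_zero {n : ℕ} (hn : 1 ≤ n) (a : ZMod p) : (QQ n a).coeff 0 = 1 := by
  unfold QQ
  rw [coeff_zero_eq_eval_zero]
  have h1 : 2 * n ≠ 0 := by omega
  have h2 : n ≠ 0 := by omega
  simp [h2]

theorem QQ_reverse {n : ℕ} (hn : 1 ≤ n) (a : ZMod p) : (QQ n a).reverse = QQ n a := by
  have h : (QQ n a).reverse = reflect (2 * n) (QQ n a) := by
    unfold reverse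
    rw [QQ_natDegree hn]
  rw [h]
  unfold QQ
  rw [reflect_add, reflect_add, reflect_C_mul_X_pow, ← C_1, reflect_C]
  have h3 : (X : Polynomial (ZMod p)) ^ (2 * n) = C 1 * X ^ (2 * n) := by simp
  rw [h3, reflect_C_mul_X_pow, revAt_le (le_refl _), revAt_le (by omega : n ≤ 2 * n)]
  have h4 : 2 * n - n = n := by omega
  rw [h4, Nat.sub_self, pow_zero, mul_one, C_1]
  ring

theorem QQ_pow (n u : ℕ) (a : ZMod p) : QQ n a ^ (p ^ u) = QQ (p ^ u * n) a := by
  unfold QQ
  rw [add_pow_char_pow, add_pow_char_pow, mul_pow, one_pow, ← pow_mul, ← pow_mul, ← C_pow,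
    ZMod.pow_card_pow]
  congr 3
  · ring
  · ring

theorem reverse_pow' (Q : Polynomial (ZMod p)) (k : ℕ) : (Q ^ k).reverse = Q.reverse ^ k := by
  induction k with
  | zero => rw [pow_zero, pow_zero, ← C_1, reverse_C]
  | succ k ih => rw [pow_succ, pow_succ, reverse_mul_of_domain, ih]

theorem pal_of_pow (hp : 13 ≤ p) {n : ℕ} (hn : 1 ≤ n) (u : ℕ) (a : ZMod p) :
    ∃ S : Polynomial (ZMod p), S.natDegree = n + p ^ u * n ∧ S.coeff 0 ≠ 0 ∧
      S.reverse = S ∧ Pa n (p ^ u * n) a = S ^ 2 := by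
  have hodd : Odd (p ^ u) := by
    refine Odd.pow ((Fact.out : p.Prime).odd_of_ne_two (by omega))
  obtain ⟨k, hk⟩ := hodd
  refine ⟨QQ n a ^ (k + 1), ?_, ?_, ?_, ?_⟩
  · rw [natDegree_pow, QQ_natDegree hn, hk]
    ring
  · rw [coeff_zero_eq_eval_zero, eval_pow, ← coeff_zero_eq_eval_zero, QQ_coeff_zero hn, one_pow]
    exact one_ne_zero
  · rw [reverse_pow', QQ_reverse hn]
  · have h : Pa n (p ^ u * n) a = QQ n a * QQ n a ^ (p ^ u) := by
      rw [QQ_pow]
      rfl
    rw [h, hk, ← pow_mul]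
    ring

/-! ### The converse direction -/

/-- Polynomials as elements of `A p`. -/
noncomputable def toA : Polynomial (ZMod p) →+* A p :=
  (algebraMap (Polynomial (ZMod p)) (RatFunc (ZMod p))).codRestrict (A p)
    (fun a => ⟨a, 1, by simp, by simp⟩)

theorem toA_inj {a b : Polynomial (ZMod p)} (h : toA a = toA b) : a = b := by
  have h1 := congrArg Subtype.val h
  exact IsFractionRing.injective (Polynomial (ZMod p)) (RatFunc (ZMod p)) h1

/-- The inverse of `1 + t`. -/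
noncomputable def wi : A p :=
  ⟨algebraMap (Polynomial (ZMod p)) (RatFunc (ZMod p)) 1 /
    algebraMap (Polynomial (ZMod p)) (RatFunc (ZMod p)) (1 + X), 1, 1 + X, by simp, rfl⟩

theorem w_mul_wi : toA (1 + X) * (wi : A p) = 1 := by
  apply Subtype.ext
  change algebraMap (Polynomial (ZMod p)) (RatFunc (ZMod p)) (1 + X) *
    (algebraMap (Polynomial (ZMod p)) (RatFunc (ZMod p)) 1 /
    algebraMap (Polynomial (ZMod p)) (RatFunc (ZMod p)) (1 + X)) = 1
  have h : algebraMap (Polynomial (ZMod p)) (RatFunc (ZMod p)) (1 + X) ≠ 0 := by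
    rw [map_ne_zero_iff _ (IsFractionRing.injective (Polynomial (ZMod p)) (RatFunc (ZMod p)))]
    intro h
    have := congrArg (eval 0) h
    simp at this
  rw [map_one]
  field_simp

theorem natDegree_w_pow (N : ℕ) : ((1 + X : Polynomial (ZMod p)) ^ N).natDegree = N := by
  rw [natDegree_pow]
  have : (1 + X : Polynomial (ZMod p)).natDegree = 1 := by
    rw [add_comm, ← C_1]; exact natDegree_X_add_C 1
  rw [this, mul_one]

/-- `x_N = w^N + w^(-N)`. -/
noncomputable def xx (N : ℕ) : A p := toA (1 + X) ^ N + wi ^ N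

theorem xx_mul (N : ℕ) : (xx N : A p) * toA (1 + X) ^ N = toA ((1 + X) ^ (2 * N) + 1) := by
  unfold xx
  have h : (wi : A p) ^ N * toA (1 + X) ^ N = 1 := by
    rw [← mul_pow, mul_comm, w_mul_wi, one_pow]
  have h2 : (toA ((1 + X) ^ (2 * N) + 1) : A p) = toA (1 + X) ^ (2 * N) + 1 := by
    rw [map_add, map_pow, map_one]
  rw [add_mul, h, h2, two_mul, pow_add]

theorem w_pow_ne_zero (N : ℕ) : toA (1 + X) ^ N ≠ (0 : A p) := by
  intro h
  have h1 : toA (1 + X) ^ N * (wi : A p) ^ N = 1 := by rw [← mul_pow, w_mul_wi, one_pow]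
  rw [h, zero_mul] at h1
  exact zero_ne_one h1

theorem xx_nonconst {N : ℕ} (hN : 1 ≤ N) : Nonconst (xx N : A p) := by
  intro c hc
  have h := xx_mul (p := p) N
  rw [hc] at h
  have h2 : toA ((c : Polynomial (ZMod p)) * (1 + X) ^ N) =
      toA (p := p) ((1 + X) ^ (2 * N) + 1) := by
    rw [map_mul, map_natCast, map_pow]
    exact h
  have h3 := toA_inj h2
  have h4 : ((1 + X : Polynomial (ZMod p)) ^ (2 * N) + 1).natDegree = 2 * N := by
    rw [natDegree_add_eq_left_of_natDegree_lt]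
    · exact natDegree_w_pow _
    · rw [natDegree_w_pow, natDegree_one]; omega
  have h5 : ((c : Polynomial (ZMod p)) * (1 + X) ^ N).natDegree ≤ N := by
    refine le_trans (natDegree_mul_le) ?_
    rw [natDegree_natCast, natDegree_w_pow, zero_add]
  rw [h3, h4] at h5
  omega

theorem xx_inj {N K : ℕ} (hN : 1 ≤ N) (h : (xx N : A p) = xx K) : N = K := by
  have h1 := xx_mul (p := p) N
  have h2 := xx_mul (p := p) K
  rw [h] at h1
  have h3 : toA (p := p) (((1 + X) ^ (2 * N) + 1) * (1 + X) ^ K) =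
      toA (p := p) (((1 + X) ^ (2 * K) + 1) * (1 + X) ^ N) := by
    rw [map_mul, map_mul, ← h1, ← h2, map_pow, map_pow]
    ring
  have h4 := toA_inj h3
  have h5 : ((1 + X : Polynomial (ZMod p)) ^ N - (1 + X) ^ K) * ((1 + X) ^ (N + K) - 1) = 0 := by
    have e : ((1 + X : Polynomial (ZMod p)) ^ N - (1 + X) ^ K) * ((1 + X) ^ (N + K) - 1) =
      (((1 + X) ^ (2 * N) + 1) * (1 + X) ^ K) - (((1 + X) ^ (2 * K) + 1) * (1 + X) ^ N) := by
      ring
    rw [e, h4, sub_self]
  rcases mul_eq_zero.mp h5 with h6 | h6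
  · have := congrArg natDegree (sub_eq_zero.mp h6)
    rwa [natDegree_w_pow, natDegree_w_pow] at this
  · have := congrArg natDegree (sub_eq_zero.mp h6)
    rw [natDegree_w_pow, natDegree_one] at this
    omega

theorem xx_pow (N u : ℕ) : (xx N : A p) ^ (p ^ u) = xx (p ^ u * N) := by
  unfold xx
  rw [add_pow_char_pow, ← pow_mul, ← pow_mul, mul_comm N]

theorem xx_B {n m : ℕ}
    (h : ∀ a : ZMod p, ∃ S : Polynomial (ZMod p), S.natDegree = n + m ∧ S.coeff 0 ≠ 0 ∧
      S.reverse = S ∧ Pa n m a = S ^ 2) : B (xx (2 * n) : A p) (xx (2 * m)) := by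
  intro a _
  obtain ⟨S, -, -, -, hS⟩ := h (a : ZMod p)
  set w : A p := toA (1 + X) with hw
  have hwi : w * wi = 1 := w_mul_wi
  let E : Polynomial (ZMod p) →+* A p :=
    eval₂RingHom (ZMod.castHom (dvd_refl p) (A p)) (w ^ 2)
  have hX : E X = w ^ 2 := by simp [E]
  have hC : E (C (a : ZMod p)) = (a : A p) := by
    simp only [E, coe_eval₂RingHom, eval₂_C]
    exact map_natCast _ _
  have h1 := congrArg E hS
  unfold Pa at h1
  simp only [map_mul, map_add, map_pow, map_one, hX, hC] at h1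
  refine ⟨E S * wi ^ (n + m), ?_⟩
  have h2 : E S * wi ^ (n + m) * (E S * wi ^ (n + m)) = E S ^ 2 * wi ^ (2 * (n + m)) := by ring
  rw [h2, ← h1]
  unfold xx
  have e1 : ∀ k : ℕ, w ^ k * (wi : A p) ^ k = 1 := fun k => by rw [← mul_pow, hwi, one_pow]
  have e2 : ((w ^ 2) ^ (2 * n) + (a : A p) * (w ^ 2) ^ n + 1) * wi ^ (2 * n) =
      w ^ (2 * n) + wi ^ (2 * n) + (a : A p) := by
    have f1 : (w ^ 2) ^ (2 * n) = w ^ (2 * n) * w ^ (2 * n) := by ring
    have f2 : (w ^ 2) ^ n = w ^ (2 * n) := by ring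
    rw [f1, f2, add_mul, add_mul, mul_assoc, mul_assoc, e1, one_mul, mul_one, mul_one]
    ring
  have e3 : ((w ^ 2) ^ (2 * m) + (a : A p) * (w ^ 2) ^ m + 1) * wi ^ (2 * m) =
      w ^ (2 * m) + wi ^ (2 * m) + (a : A p) := by
    have f1 : (w ^ 2) ^ (2 * m) = w ^ (2 * m) * w ^ (2 * m) := by ring
    have f2 : (w ^ 2) ^ m = w ^ (2 * m) := by ring
    rw [f1, f2, add_mul, add_mul, mul_assoc, mul_assoc, e1, one_mul, mul_one, mul_one]
    ring
  rw [← hw, ← e2, ← e3]
  ring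

/-- Section 4: palindromic squares. -/
theorem pal_iff (hp : 13 ≤ p) {n m : ℕ} (hn : 1 ≤ n) (hm : 1 ≤ m) :
    (∀ a : ZMod p, ∃ S : Polynomial (ZMod p), S.natDegree = n + m ∧ S.coeff 0 ≠ 0 ∧
      S.reverse = S ∧ Pa n m a = S ^ 2) ↔
    ∃ u : ℕ, n = p ^ u * m ∨ m = p ^ u * n := by
  constructor
  · intro h
    obtain ⟨u, hu⟩ := B_frob hp (xx_nonconst (by omega : 1 ≤ 2 * n)) (xx_B h)
    refine ⟨u, ?_⟩
    rcases hu with hu | hu
    · right
      rw [xx_pow] at hu
      have := xx_inj (by omega) hu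
      have h2 : 2 * m = 2 * (p ^ u * n) := by rw [this]; ring
      omega
    · left
      rw [xx_pow] at hu
      have := xx_inj (by omega) hu
      have h2 : 2 * n = 2 * (p ^ u * m) := by rw [this]; ring
      omega
  · rintro ⟨u, rfl | rfl⟩ a
    · obtain ⟨S, h1, h2, h3, h4⟩ := pal_of_pow hp hm u a
      refine ⟨S, by rw [h1, add_comm], h2, h3, ?_⟩
      rw [← h4]
      unfold Pa
      rw [mul_comm]
    · exact pal_of_pow hp hn u a

end LR54
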