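import Pool.Agent.LR54.MDN
import Pool.Agent.LR54.KConv
import Pool.Agent.LR54.PalIff

/-!
# LR54.RR: the relation `R` is definable. Uses `key_square`, `key_conv`, `pal_iff`.
-/

namespace LR54

variable {p : ℕ} [Fact p.Prime]

open Polynomial in
theorem PF_addR (P Q : Polynomial (ZMod p)) (g : A p) : PF (P + Q) g = PF P g + PF Q g := by
  unfold PF
  refine Polynomial.sum_add_index P Q _ (fun i => by simp) (fun i c d => ?_)
  rw [← add_mul]
  congr 1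
  rw [ZMod.val_add, ← CharP.cast_eq_mod, Nat.cast_add]

open Polynomial in
theorem PF_monomialR (c : ℕ) (j : ℕ) (g : A p) :
    PF (C (c : ZMod p) * X ^ j) g = (c : A p) * g ^ (p ^ j) := by
  unfold PF
  rw [C_mul_X_pow_eq_monomial, Polynomial.sum_monomial_index _ _ (by simp)]
  congr 1
  rw [ZMod.val_natCast, ← CharP.cast_eq_mod]

open Polynomial in
theorem PF_X_pow (j : ℕ) (g : A p) : PF (X ^ j : Polynomial (ZMod p)) g = g ^ (p ^ j) := by
  have := PF_monomialR (p := p) 1 j g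
  simpa using this

/-- `P_a(F) g` written out. -/
theorem PF_Pa (n m : ℕ) (a : ℕ) (g : A p) :
    PF (Pa n m (a : ZMod p)) g =
      g ^ (p ^ (2 * n + 2 * m)) + (a : A p) * g ^ (p ^ (2 * n + m)) + g ^ (p ^ (2 * n)) +
      ((a : A p) * g ^ (p ^ (n + 2 * m)) + (a : A p) ^ 2 * g ^ (p ^ (n + m)) +
        (a : A p) * g ^ (p ^ n)) +
      (g ^ (p ^ (2 * m)) + (a : A p) * g ^ (p ^ m) + g) := by
  open Polynomial in
  have h : Pa n m (a : ZMod p) =
      X ^ (2 * n + 2 * m) + C (a : ZMod p) * X ^ (2 * n + m) + X ^ (2 * n) +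
      (C (a : ZMod p) * X ^ (n + 2 * m) + C ((a ^ 2 : ℕ) : ZMod p) * X ^ (n + m) +
        C (a : ZMod p) * X ^ n) +
      (X ^ (2 * m) + C (a : ZMod p) * X ^ m + X ^ 0) := by
    unfold Pa
    push_cast
    rw [map_pow]
    ring
  rw [h]
  simp only [PF_addR, PF_monomialR, PF_X_pow]
  push_cast
  simp

section pal

open Polynomial

/-- The quadratic factor. -/
noncomputable def Qa (n : ℕ) (a : ZMod p) : Polynomial (ZMod p) := X ^ (2 * n) + C a * X ^ n + 1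

theorem Qa_coeff (n : ℕ) (a : ZMod p) (k : ℕ) : (Qa n a).coeff k =
    (if k = 2 * n then 1 else 0) + a * (if k = n then 1 else 0) + (if k = 0 then 1 else 0) := by
  unfold Qa
  simp only [coeff_add, coeff_X_pow, coeff_C_mul, coeff_one]

theorem Qa_natDegree {n : ℕ} (hn : 1 ≤ n) (a : ZMod p) : (Qa n a).natDegree = 2 * n := by
  refine natDegree_eq_of_le_of_coeff_ne_zero ?_ ?_
  · rw [natDegree_le_iff_coeff_eq_zero]
    intro k hk
    rw [Qa_coeff, if_neg (by omega), if_neg (by omega), if_neg (by omega)]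
    simp
  · rw [Qa_coeff, if_pos rfl, if_neg (by omega), if_neg (by omega)]
    simp

theorem Qa_reverse {n : ℕ} (hn : 1 ≤ n) (a : ZMod p) : (Qa n a).reverse = Qa n a := by
  ext k
  rw [coeff_reverse, Qa_natDegree hn]
  by_cases hk : k ≤ 2 * n
  · rw [revAt_le hk, Qa_coeff, Qa_coeff]
    have h1 : (2 * n - k = 2 * n) ↔ k = 0 := by omega
    have h2 : (2 * n - k = n) ↔ k = n := by omega
    have h3 : (2 * n - k = 0) ↔ k = 2 * n := by omega
    simp only [h1, h2, h3]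
    ring
  · rw [revAt_eq_self_of_lt (by omega)]

theorem Pa_eq (n m : ℕ) (a : ZMod p) : Pa n m a = Qa n a * Qa m a := rfl

theorem Qa_ne_zero {n : ℕ} (hn : 1 ≤ n) (a : ZMod p) : Qa n a ≠ 0 := by
  intro h
  have := Qa_natDegree hn a
  rw [h, natDegree_zero] at this
  omega

theorem Pa_natDegree {n m : ℕ} (hn : 1 ≤ n) (hm : 1 ≤ m) (a : ZMod p) :
    (Pa n m a).natDegree = 2 * (n + m) := by
  rw [Pa_eq, natDegree_mul (Qa_ne_zero hn a) (Qa_ne_zero hm a), Qa_natDegree hn, Qa_natDegree hm]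
  ring

theorem Pa_reverse {n m : ℕ} (hn : 1 ≤ n) (hm : 1 ≤ m) (a : ZMod p) :
    (Pa n m a).reverse = Pa n m a := by
  rw [Pa_eq, reverse_mul_of_domain, Qa_reverse hn, Qa_reverse hm]

theorem Pa_coeff_zero {n m : ℕ} (hn : 1 ≤ n) (hm : 1 ≤ m) (a : ZMod p) :
    (Pa n m a).coeff 0 = 1 := by
  have h1 : n ≠ 0 := by omega
  have h2 : m ≠ 0 := by omega
  rw [Pa_eq, mul_coeff_zero, Qa_coeff, Qa_coeff]
  simp [h1, h2, Ne.symm h1, Ne.symm h2]

end pal

/-- `f + b` is invertible. -/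
theorem Good.inv {f : A p} (hf : Good f) {b : ℕ} (hb : 0 < b) (hbp : b < p) :
    ∃ g : A p, g * (f + (b : A p)) = 1 := by
  open Polynomial in
  obtain ⟨_, y, z, hfyz⟩ := hf
  obtain ⟨a1, b1, hb1, h1⟩ := mem_A_iff.1 y.2
  obtain ⟨a2, b2, hb2, h2⟩ := mem_A_iff.1 z.2
  set φ := algebraMap (Polynomial (ZMod p)) (RatFunc (ZMod p)) with hφ
  have hne : ∀ q : Polynomial (ZMod p), q.eval 0 ≠ 0 → φ q ≠ 0 := by
    intro q hq h
    rw [FaithfulSMul.algebraMap_eq_zero_iff] at h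
    exact hq (by rw [h]; simp)
  have hp : p ≠ 0 := (Fact.out : p.Prime).ne_zero
  have hp1 : p = p - 1 + 1 := by have := (Fact.out : p.Prime).pos; omega
  set N : Polynomial (ZMod p) := (a1 ^ p - a1 * b1 ^ (p - 1)) * a2 with hN
  set M : Polynomial (ZMod p) := b1 ^ p * b2 with hM
  have hM0 : M.eval 0 ≠ 0 := by
    rw [hM, eval_mul, eval_pow]
    exact mul_ne_zero (pow_ne_zero _ hb1) hb2
  have hN0 : N.eval 0 = 0 := by
    rw [hN, eval_mul, eval_sub, eval_mul, eval_pow, eval_pow, ZMod.pow_card,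
      ZMod.pow_card_sub_one_eq_one hb1, mul_one, sub_self, zero_mul]
  have hfe : (f : RatFunc (ZMod p)) = φ N / φ M := by
    have e1 : (f : RatFunc (ZMod p)) = ((y : RatFunc (ZMod p)) ^ p - y) * z := by
      have := congrArg Subtype.val hfyz
      simpa using this
    rw [e1, h1, h2, hN, hM]
    have hb1' := hne b1 hb1
    have hb2' := hne b2 hb2
    simp only [map_mul, map_sub, map_pow]
    rw [div_pow]
    field_simp
    have : φ b1 ^ p = φ b1 ^ (p - 1) * φ b1 := by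
      rw [← pow_succ, ← hp1]
    rw [this]
    ring
  set N' : Polynomial (ZMod p) := N + C (b : ZMod p) * M with hN'
  have hN'0 : N'.eval 0 ≠ 0 := by
    rw [hN', eval_add, hN0, zero_add, eval_mul, eval_C]
    refine mul_ne_zero ?_ hM0
    intro h
    rw [CharP.cast_eq_zero_iff (ZMod p) p] at h
    exact absurd (Nat.le_of_dvd hb h) (by omega)
  refine ⟨⟨φ M / φ N', ⟨M, N', hN'0, rfl⟩⟩, ?_⟩
  apply Subtype.ext
  have h3 := hne _ hM0
  have h4 := hne _ hN'0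
  have h5 : φ N' = φ N + (b : RatFunc (ZMod p)) * φ M := by
    rw [hN']
    simp
  show (φ M / φ N') * ((f : RatFunc (ZMod p)) + ((b : A p) : RatFunc (ZMod p))) = 1
  rw [hfe]
  have h6 : ((b : A p) : RatFunc (ZMod p)) = (b : RatFunc (ZMod p)) := by simp
  rw [h6]
  have h7 : φ N / φ M + (b : RatFunc (ZMod p)) = φ N' / φ M := by
    rw [h5]
    field_simp
  rw [h7]
  field_simp

/-- The formula for `R`. -/
theorem rr_iff (hp : 13 ≤ p) {f : A p} (hf : Good f) {n m : ℕ} (hn : 1 ≤ n) (hm : 1 ≤ m) :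
    (∃ u : ℕ, n = p ^ u * m ∨ m = p ^ u * n) ↔
    ∀ a : Fin p, ∀ b : {b : Fin p // 0 < (b : ℕ)}, ∃ g z : A p,
      g * (f + (((b : Fin p) : ℕ) : A p)) = 1 ∧
      AS (z * z ^ (p ^ (2 * (n + m) + 4)) -
        g * PF (Pa n m ((a : ℕ) : ZMod p)) g ^ (p ^ ((n + m) + 4))) ∧
      AS (z * z ^ (p ^ (2 * (n + m) + 5)) -
        g * PF (Pa n m ((a : ℕ) : ZMod p)) g ^ (p ^ ((n + m) + 5))) ∧
      AS (z * g ^ (p ^ (2 * (n + m) + 4)) - g * z ^ (p ^ ((n + m) + 4))) := by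
  rw [← pal_iff hp hn hm]
  constructor
  · intro h a b
    obtain ⟨S, hS1, hS2, hS3, hS4⟩ := h ((a : ℕ) : ZMod p)
    obtain ⟨g, hg⟩ := hf.inv b.2 b.1.2
    obtain ⟨k1, k2, k3⟩ := key_conv S hS1 hS2 hS3 g
    refine ⟨g, PF S g, hg, ?_, ?_, k3⟩
    · rw [hS4]; exact k1
    · rw [hS4]; exact k2
  · intro h a
    have ha : ((a.val : ℕ) : ZMod p) = a := ZMod.natCast_zmod_val a
    refine key_square hp hf (D := n + m) (by omega) (Pa n m a) (Pa_natDegree hn hm a)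
      (Pa_coeff_zero hn hm a) (Pa_reverse hn hm a) ?_
    intro b hb hbp
    have := h ⟨a.val, ZMod.val_lt a⟩ ⟨⟨b, hbp⟩, hb⟩
    simpa only [ha] using this

theorem MF.fr (hp : 13 ≤ p) {α β : Type} {g : A p → (α → ℕ) → (β → A p) → A p} (hg : MF g)
    (i j : α) (c0 c1 c : ℕ) :
    MF (fun f v w => g f v w ^ (p ^ (c0 * v i + c1 * v j + c))) := by
  induction c0 with
  | zero =>
    induction c1 with
    | zero =>
      refine (MF.pow hg (p ^ c)).ext fun f _ v w => by simp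
    | succ c1 ih =>
      refine (MF.frob hp ih j).ext fun f _ v w => ?_
      rw [← pow_mul, ← pow_add]
      congr 2
      ring
  | succ c0 ih =>
    refine (MF.frob hp ih i).ext fun f _ v w => ?_
    rw [← pow_mul, ← pow_add]
    congr 2
    ring

theorem MF.pfPa (hp : 13 ≤ p) {α β : Type} {g : A p → (α → ℕ) → (β → A p) → A p} (hg : MF g)
    (i j : α) (a : ℕ) :
    MF (fun f v w => PF (Pa (v i) (v j) (a : ZMod p)) (g f v w)) := by
  have fr := fun c0 c1 => MF.fr hp hg i j c0 c1 0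
  have hT := MF.add (MF.add
    (MF.add (MF.add (fr 2 2) (MF.mul (MF.nat a) (fr 2 1))) (fr 2 0))
    (MF.add (MF.add (MF.mul (MF.nat a) (fr 1 2)) (MF.mul (MF.pow (MF.nat a) 2) (fr 1 1)))
      (MF.mul (MF.nat a) (fr 1 0))))
    (MF.add (MF.add (fr 0 2) (MF.mul (MF.nat a) (fr 0 1))) hg)
  refine hT.ext fun f _ v w => ?_
  rw [PF_Pa]
  simp only [one_mul, zero_mul, add_zero, zero_add]

theorem MD.one_le (hp : 13 ≤ p) {α β : Type} (i : α) :
    MD (fun (_ : A p) (v : α → ℕ) (_ : β → A p) => 1 ≤ v i) := by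
  have h : MD (fun (f : A p) (v : α → ℕ) (_ : β → A p) =>
      ∃ n, f ^ (p ^ v i) = (f ^ (p ^ n)) ^ p) := by
    refine MD.exN hp (S := fun f v _ n => f ^ (p ^ v i) = (f ^ (p ^ n)) ^ p) ?_
    exact MD.eq (MF.num (some i)) (MF.pow (MF.num none) p)
  refine h.ext fun f hf v w => ?_
  constructor
  · rintro ⟨n, hn⟩
    rw [← pow_mul, ← pow_succ] at hn
    have := hf.pow_inj hn
    omega
  · intro hv
    refine ⟨v i - 1, ?_⟩
    rw [← pow_mul, ← pow_succ, Nat.sub_add_cancel hv]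

theorem MD.rr (hp : 13 ≤ p) :
    MD (fun (_ : A p) (v : Fin 2 → ℕ) (_ : Empty → A p) =>
      1 ≤ v 0 ∧ 1 ≤ v 1 ∧ ∃ u : ℕ, v 0 = p ^ u * v 1 ∨ v 1 = p ^ u * v 0) := by
  have hmain : MD (fun (f : A p) (v : Fin 2 → ℕ) (_ : Empty → A p) =>
      ∀ a : Fin p, ∀ b : {b : Fin p // 0 < (b : ℕ)}, ∃ g z : A p,
      g * (f + (((b : Fin p) : ℕ) : A p)) = 1 ∧
      AS (z * z ^ (p ^ (2 * (v 0 + v 1) + 4)) -
        g * PF (Pa (v 0) (v 1) ((a : ℕ) : ZMod p)) g ^ (p ^ ((v 0 + v 1) + 4))) ∧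
      AS (z * z ^ (p ^ (2 * (v 0 + v 1) + 5)) -
        g * PF (Pa (v 0) (v 1) ((a : ℕ) : ZMod p)) g ^ (p ^ ((v 0 + v 1) + 5))) ∧
      AS (z * g ^ (p ^ (2 * (v 0 + v 1) + 4)) - g * z ^ (p ^ ((v 0 + v 1) + 4)))) := by
    refine MD.ballFin fun a => MD.ballFin fun b => ?_
    refine MD.exA (S := fun f v _ g => ∃ z : A p,
      g * (f + (((b : Fin p) : ℕ) : A p)) = 1 ∧
      AS (z * z ^ (p ^ (2 * (v 0 + v 1) + 4)) -
        g * PF (Pa (v 0) (v 1) ((a : ℕ) : ZMod p)) g ^ (p ^ ((v 0 + v 1) + 4))) ∧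
      AS (z * z ^ (p ^ (2 * (v 0 + v 1) + 5)) -
        g * PF (Pa (v 0) (v 1) ((a : ℕ) : ZMod p)) g ^ (p ^ ((v 0 + v 1) + 5))) ∧
      AS (z * g ^ (p ^ (2 * (v 0 + v 1) + 4)) - g * z ^ (p ^ ((v 0 + v 1) + 4)))) ?_
    refine MD.exA (S := fun f v w z =>
      w none * (f + (((b : Fin p) : ℕ) : A p)) = 1 ∧
      AS (z * z ^ (p ^ (2 * (v 0 + v 1) + 4)) -
        w none * PF (Pa (v 0) (v 1) ((a : ℕ) : ZMod p)) (w none) ^ (p ^ ((v 0 + v 1) + 4))) ∧
      AS (z * z ^ (p ^ (2 * (v 0 + v 1) + 5)) -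
        w none * PF (Pa (v 0) (v 1) ((a : ℕ) : ZMod p)) (w none) ^ (p ^ ((v 0 + v 1) + 5))) ∧
      AS (z * w none ^ (p ^ (2 * (v 0 + v 1) + 4)) -
        w none * z ^ (p ^ ((v 0 + v 1) + 4)))) ?_
    have hg : MF (fun (_ : A p) (_ : Fin 2 → ℕ) (w : Option (Option Empty) → A p) =>
      w (some none)) := MF.var (some none)
    have hz : MF (fun (_ : A p) (_ : Fin 2 → ℕ) (w : Option (Option Empty) → A p) =>
      w none) := MF.var none
    have hP := MF.pfPa hp hg 0 1 (a : ℕ)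
    have e1 : ∀ (v : Fin 2 → ℕ) (c : ℕ), 2 * v 0 + 2 * v 1 + c = 2 * (v 0 + v 1) + c := by
      intro v c; ring
    have e2 : ∀ (v : Fin 2 → ℕ) (c : ℕ), 1 * v 0 + 1 * v 1 + c = (v 0 + v 1) + c := by
      intro v c; ring
    refine MD.and ?_ (MD.and ?_ (MD.and ?_ ?_))
    · refine (MD.eq (MF.mul hg (MF.add MF.par (MF.nat ((b : Fin p) : ℕ)))) (MF.nat 1)).ext
        fun f _ v w => ?_
      rw [Nat.cast_one]
      rfl
    · refine (MD.as (MF.sub (MF.mul hz (MF.fr hp hz 0 1 2 2 4))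
        (MF.mul hg (MF.fr hp hP 0 1 1 1 4)))).ext fun f _ v w => ?_
      rw [e1, e2]
      rfl
    · refine (MD.as (MF.sub (MF.mul hz (MF.fr hp hz 0 1 2 2 5))
        (MF.mul hg (MF.fr hp hP 0 1 1 1 5)))).ext fun f _ v w => ?_
      rw [e1, e2]
      rfl
    · refine (MD.as (MF.sub (MF.mul hz (MF.fr hp hg 0 1 2 2 4))
        (MF.mul hg (MF.fr hp hz 0 1 1 1 4)))).ext fun f _ v w => ?_
      rw [e1, e2]
      rfl
  refine (MD.and (MD.one_le hp 0) (MD.and (MD.one_le hp 1) hmain)).ext fun f hf v w => ?_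
  constructor
  · rintro ⟨h1, h2, h3⟩
    exact ⟨h1, h2, (rr_iff hp hf h1 h2).2 h3⟩
  · rintro ⟨h1, h2, h3⟩
    exact ⟨h1, h2, (rr_iff hp hf h1 h2).1 h3⟩

end LR54
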