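import Mathlib

/-!
# LR54.Ring: the ring `A_p = F_p[t]_(t)` inside `F_p(t)`, nonzero elements of its maximal ideal
(`Good`), the relation `B`, the relation `AS`, and `P(F) g`.
-/

namespace LR54

open Polynomial

/-- `F_p[t]_(t)` as a subring of `F_p(t)`. -/
def A (p : ℕ) [Fact p.Prime] : Subring (RatFunc (ZMod p)) where
  carrier := {x | ∃ a b : Polynomial (ZMod p), b.eval 0 ≠ 0 ∧
    x = algebraMap (Polynomial (ZMod p)) (RatFunc (ZMod p)) a /
      algebraMap (Polynomial (ZMod p)) (RatFunc (ZMod p)) b}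
  mul_mem' := by
    rintro x y ⟨a, b, hb, rfl⟩ ⟨c, d, hd, rfl⟩
    refine ⟨a * c, b * d, by rw [eval_mul]; exact mul_ne_zero hb hd, ?_⟩
    rw [map_mul, map_mul, div_mul_div_comm]
  one_mem' := ⟨1, 1, by simp, by simp⟩
  add_mem' := by
    rintro x y ⟨a, b, hb, rfl⟩ ⟨c, d, hd, rfl⟩
    refine ⟨a * d + b * c, b * d, by rw [eval_mul]; exact mul_ne_zero hb hd, ?_⟩
    have hb' : algebraMap (Polynomial (ZMod p)) (RatFunc (ZMod p)) b ≠ 0 := by
      intro h
      rw [FaithfulSMul.algebraMap_eq_zero_iff] at h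
      exact hb (by rw [h]; simp)
    have hd' : algebraMap (Polynomial (ZMod p)) (RatFunc (ZMod p)) d ≠ 0 := by
      intro h
      rw [FaithfulSMul.algebraMap_eq_zero_iff] at h
      exact hd (by rw [h]; simp)
    rw [map_add, map_mul, map_mul, map_mul, div_add_div _ _ hb' hd']
  zero_mem' := ⟨0, 1, by simp, by simp⟩
  neg_mem' := by
    rintro x ⟨a, b, hb, rfl⟩
    exact ⟨-a, b, hb, by rw [map_neg, neg_div]⟩

variable {p : ℕ} [Fact p.Prime]

theorem mem_A_iff {x : RatFunc (ZMod p)} : x ∈ A p ↔ ∃ a b : Polynomial (ZMod p),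
    b.eval 0 ≠ 0 ∧ x = algebraMap (Polynomial (ZMod p)) (RatFunc (ZMod p)) a /
      algebraMap (Polynomial (ZMod p)) (RatFunc (ZMod p)) b := Iff.rfl

instance : CharP (RatFunc (ZMod p)) p :=
  charP_of_injective_algebraMap (algebraMap (ZMod p) (RatFunc (ZMod p))).injective p

instance : CharP (A p) p where
  cast_eq_zero_iff n := by
    rw [← CharP.cast_eq_zero_iff (RatFunc (ZMod p)) p n]
    constructor
    · intro h
      have := congrArg Subtype.val h
      simpa using this
    · intro h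
      apply Subtype.ext
      simpa using h

/-- A nonzero element of the maximal ideal, existential form. -/
def Good (f : A p) : Prop := f ≠ 0 ∧ ∃ y z : A p, f = (y ^ p - y) * z

/-- An element not in the prime field. -/
def Nonconst (x : A p) : Prop := ∀ c : ℕ, x ≠ (c : A p)

/-- The squares relation. -/
def B (x y : A p) : Prop := ∀ a : ℕ, a < p → IsSquare ((x + (a : A p)) * (y + (a : A p)))

/-- The Artin-Schreier relation `x ∈ (F-1) A`. -/
def AS (x : A p) : Prop := ∃ v : A p, x = v ^ p - v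

/-- `P(F) g = Σ_j P_j g^(p^j)`. -/
noncomputable def PF (P : Polynomial (ZMod p)) (g : A p) : A p :=
  P.sum fun j c => (c.val : A p) * g ^ (p ^ j)

/-- `(X^(2n) + a X^n + 1)(X^(2m) + a X^m + 1)`. -/
noncomputable def Pa (n m : ℕ) (a : ZMod p) : Polynomial (ZMod p) :=
  (X ^ (2 * n) + C a * X ^ n + 1) * (X ^ (2 * m) + C a * X ^ m + 1)

end LR54
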